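import Pool.Agent.Lib.MP_1f0905_gt.Top

namespace Pool.Agent.Lib.MP_1f0905_gt

/-- There is a locally compact, locally metrizable Hausdorff space of weight at most `ℵ₁` which
contains no perfect preimage of `ω₁` and is not quasi developable. -/
theorem ambient : ∃ (X : Type) (_ : TopologicalSpace X), T2Space X ∧ LocallyCompactSpace X ∧
    LocallyMetrizable X ∧ WeightLE X (Cardinal.aleph 1) ∧
    ¬ ContainsPerfectPreimageOfOmegaOne X ∧ ¬ QuasiDevelopable X := by
  have h1 : Cardinal.mk (Cardinal.aleph 1).ord.ToType = Cardinal.aleph 1 :=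
    Cardinal.mk_ord_toType _
  have h2 : Uncountable (Cardinal.aleph 1).ord.ToType := by
    rw [← Cardinal.aleph0_lt_mk_iff, h1]
    exact Cardinal.aleph0_lt_aleph_one
  obtain ⟨D⟩ := exists_dat (Ω := (Cardinal.aleph 1).ord.ToType) fun δ => by
    rw [← Cardinal.le_aleph0_iff_set_countable, ← Cardinal.lt_aleph_one_iff]
    exact (Cardinal.mk_Iio_lt δ (by simp)).trans_eq h1
  exact ⟨Sp D, inferInstance, inferInstance, inferInstance, D.locallyMetrizable,
    D.weightLE h1.le, D.not_containsPerfectPreimage, D.not_quasiDevelopable⟩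

end Pool.Agent.Lib.MP_1f0905_gt
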