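import Mathlib

/-!
The combinatorial core: a system of sets `W δ` in `Ω × 2 ^ ℕ`, defined by recursion along a well
order `Ω` whose proper initial segments are countable.
-/

open Set Filter Topology

namespace Pool.Agent.Lib.MP_1f0905_gt

/-- Enumerations of the initial segments of `Ω`. -/
structure Dat (Ω : Type) [LinearOrder Ω] where
  e : Ω → ℕ → Ω
  ι : Ω → Ω → ℕ
  e_lt : ∀ δ a, a < δ → ∀ l, e δ l < δ
  e_surj : ∀ δ a, a < δ → ∃ l, e δ l = a
  ι_inj : ∀ δ, InjOn (ι δ) (Iio δ)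

variable {Ω : Type} [LinearOrder Ω]

/-- The underlying set of the space. -/
@[ext] structure Sp (D : Dat Ω) where
  lev : Ω
  pt : ℕ → Bool

/-- Sequences supported below `n`. -/
def T (n : ℕ) : Set (ℕ → Bool) := {q | ∀ i, n ≤ i → q i = false}

theorem T_finite (n : ℕ) : (T n).Finite := by
  refine (Set.finite_range fun (t : Fin n → Bool) (i : ℕ) =>
    if h : i < n then t ⟨i, h⟩ else false).subset fun q hq => ⟨fun i => q i, ?_⟩
  funext i
  by_cases h : i < n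
  · simp [h]
  · simp [h, hq i (not_lt.1 h)]

theorem T_mono {m n : ℕ} (h : m ≤ n) : T m ⊆ T n := fun _ hq i hi => hq i (h.trans hi)

namespace Dat

variable (D : Dat Ω)

/-- The enumerations of `α` and `δ` agree below `i`. -/
def agree (α δ : Ω) (i : ℕ) : Prop := ∀ l < i, D.e α l = D.e δ l

/-- Union of the first `k` sets below `δ`. -/
def K (V : Ω → Set (Sp D)) (δ : Ω) (k : ℕ) : Set (Sp D) :=
  {z | ∃ γ, γ < δ ∧ D.ι δ γ < k ∧ z ∈ V γ}

open Classical in
/-- The depth at which the level `α` is attached. -/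
noncomputable def kk (Kf : ℕ → Set (Sp D)) (α : Ω) (n : ℕ) : ℕ :=
  Nat.findGreatest (fun k => ∀ q ∈ T (k + 1), (⟨α, q⟩ : Sp D) ∉ Kf k) n

/-- The piece attached at depth `k`. -/
def U (A : Set (Sp D)) (Kf : ℕ → Set (Sp D)) (δ : Ω) (k : ℕ) : Set (Sp D) :=
  {z | z ∈ A ∧ z ∉ Kf k ∧ z.pt k = true ∧ ∀ i < k, z.pt i = true → D.agree z.lev δ i}

/-- One step of the recursion. -/
def step (V : Ω → Set (Sp D)) (δ : Ω) : Set (Sp D) :=
  {z | z.lev = δ ∨ ∃ α, α < δ ∧
    z ∈ D.U (V α) (D.K V δ) δ (D.kk (D.K V δ) α (D.ι δ α))}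

theorem step_congr {V V' : Ω → Set (Sp D)} {δ : Ω} (h : ∀ γ, γ < δ → V γ = V' γ) :
    D.step V δ = D.step V' δ := by
  have hK : D.K V δ = D.K V' δ := by
    funext k
    ext z
    refine exists_congr fun γ => and_congr_right fun hγ => ?_
    rw [h γ hγ]
  ext z
  refine or_congr_right (exists_congr fun α => and_congr_right fun hα => ?_)
  rw [hK, h α hα]

variable [WellFoundedLT Ω]

open Classical in
/-- The compact open neighbourhoods of the levels. -/
noncomputable def W : Ω → Set (Sp D) :=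
  (wellFounded_lt (α := Ω)).fix fun δ prev =>
    D.step (fun γ => if h : γ < δ then prev γ h else ∅) δ

theorem W_eq (δ : Ω) : D.W δ = D.step D.W δ := by
  rw [W, WellFounded.fix_eq]
  exact D.step_congr fun γ hγ => by simp [hγ]

/-- The depth at which `α` is attached to `δ`. -/
noncomputable def k (δ α : Ω) : ℕ := D.kk (D.K D.W δ) α (D.ι δ α)

theorem mem_W {δ : Ω} {z : Sp D} : z ∈ D.W δ ↔ z.lev = δ ∨ ∃ α, α < δ ∧
    z ∈ D.U (D.W α) (D.K D.W δ) δ (D.k δ α) := by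
  rw [W_eq]
  rfl

theorem self_mem_W (δ : Ω) (x : ℕ → Bool) : (⟨δ, x⟩ : Sp D) ∈ D.W δ :=
  D.mem_W.2 (Or.inl rfl)

theorem lev_le {δ : Ω} : ∀ {z : Sp D}, z ∈ D.W δ → z.lev ≤ δ := by
  induction δ using WellFoundedLT.induction with
  | ind δ ih =>
    intro z hz
    rcases D.mem_W.1 hz with h | ⟨α, hα, h⟩
    · exact h.le
    · exact (ih α hα h.1).trans hα.le

omit [WellFoundedLT Ω] in
theorem ι_finite (δ : Ω) (n : ℕ) : {γ | γ < δ ∧ D.ι δ γ < n}.Finite :=
  Set.Finite.of_finite_image (f := D.ι δ)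
    ((Set.finite_lt_nat n).subset (by rintro _ ⟨γ, hγ, rfl⟩; exact hγ.2))
    ((D.ι_inj δ).mono fun _ hγ => hγ.1)

theorem k_spec (δ α : Ω) : ∀ q ∈ T (D.k δ α + 1), (⟨α, q⟩ : Sp D) ∉ D.K D.W δ (D.k δ α) := by
  classical
  exact Nat.findGreatest_spec
    (P := fun k => ∀ q ∈ T (k + 1), (⟨α, q⟩ : Sp D) ∉ D.K D.W δ k) (m := 0) (Nat.zero_le _)
    (by rintro q - ⟨γ, -, h, -⟩; exact absurd h (Nat.not_lt_zero _))

theorem k_finite_of {δ : Ω}
    (h : ∀ γ, γ < δ → ∀ n, ∀ q ∈ T n, {β | (⟨β, q⟩ : Sp D) ∈ D.W γ}.Finite) (n : ℕ) :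
    {α | α < δ ∧ D.k δ α < n}.Finite := by
  classical
  have h1 : (⋃ q ∈ T (n + 1), ⋃ γ ∈ {γ | γ < δ ∧ D.ι δ γ < n},
      {β | (⟨β, q⟩ : Sp D) ∈ D.W γ}).Finite :=
    (T_finite _).biUnion fun q hq => (D.ι_finite δ n).biUnion fun γ hγ => h γ hγ.1 _ q hq
  refine ((D.ι_finite δ n).union h1).subset fun α hα => ?_
  by_contra hc
  rw [mem_union, not_or] at hc
  have h2 : n ≤ D.ι δ α := not_lt.1 fun h3 => hc.1 ⟨hα.1, h3⟩
  refine absurd hα.2 (not_lt.2 (Nat.le_findGreatest h2 ?_))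
  rintro q hq ⟨γ, hγ, hγ', hz⟩
  exact hc.2 (mem_biUnion hq (mem_biUnion (show γ ∈ {γ | γ < δ ∧ D.ι δ γ < n} from ⟨hγ, hγ'⟩) hz))

theorem fibre_finite (δ : Ω) : ∀ n, ∀ q ∈ T n, {β | (⟨β, q⟩ : Sp D) ∈ D.W δ}.Finite := by
  induction δ using WellFoundedLT.induction with
  | ind δ ih =>
    intro n q hq
    refine (((D.k_finite_of ih n).biUnion fun α hα => ih α hα.1 n q hq).insert δ).subset ?_
    intro β hβ
    rcases D.mem_W.1 hβ with h | ⟨α, hα, h⟩
    · exact Or.inl h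
    · refine Or.inr (mem_biUnion (show α ∈ {α | α < δ ∧ D.k δ α < n} from ⟨hα, ?_⟩) h.1)
      by_contra hc
      have h1 := hq _ (not_lt.1 hc)
      have h2 : q (D.k δ α) = true := h.2.2.1
      rw [h1] at h2
      exact Bool.false_ne_true h2

theorem k_finite (δ : Ω) (n : ℕ) : {α | α < δ ∧ D.k δ α < n}.Finite :=
  D.k_finite_of (fun γ _ => D.fibre_finite γ) n

/-- A point of `W γ` can only lie in finitely many of the pieces of `W δ`. -/
theorem mem_W_iff_of_mem {γ δ : Ω} (hγ : γ < δ) {z : Sp D} (hz : z ∈ D.W γ) :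
    z ∈ D.W δ ↔ ∃ α ∈ {α | α < δ ∧ D.k δ α < D.ι δ γ + 1},
      z ∈ D.U (D.W α) (D.K D.W δ) δ (D.k δ α) := by
  rw [mem_W]
  constructor
  · rintro (h | ⟨α, hα, h⟩)
    · exact absurd ((D.lev_le hz).trans_lt hγ) (by rw [h]; exact lt_irrefl _)
    · refine ⟨α, ⟨hα, ?_⟩, h⟩
      by_contra hc
      exact h.2.1 ⟨γ, hγ, by omega, hz⟩
  · rintro ⟨α, hα, h⟩
    exact Or.inr ⟨α, hα.1, h⟩

theorem isClopen_section (δ : Ω) : ∀ β, IsClopen {x | (⟨β, x⟩ : Sp D) ∈ D.W δ} := by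
  induction δ using WellFoundedLT.induction with
  | ind δ ih =>
    intro β
    rcases lt_trichotomy β δ with h | rfl | h
    · have h1 : {x | (⟨β, x⟩ : Sp D) ∈ D.W δ} = ⋃ α ∈ {α | α < δ ∧ D.k δ α < D.ι δ β + 1},
          {x | (⟨β, x⟩ : Sp D) ∈ D.U (D.W α) (D.K D.W δ) δ (D.k δ α)} := by
        ext x
        simp only [mem_ofPred_eq, mem_iUnion, exists_prop]
        exact D.mem_W_iff_of_mem h (D.self_mem_W β x)
      rw [h1]
      refine (D.k_finite δ _).isClopen_biUnion fun α hα => ?_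
      have hK : IsClopen {x | (⟨β, x⟩ : Sp D) ∈ D.K D.W δ (D.k δ α)} := by
        have h2 : {x | (⟨β, x⟩ : Sp D) ∈ D.K D.W δ (D.k δ α)} =
            ⋃ γ ∈ {γ | γ < δ ∧ D.ι δ γ < D.k δ α}, {x | (⟨β, x⟩ : Sp D) ∈ D.W γ} := by
          ext x
          simp only [K, mem_ofPred_eq, mem_iUnion, exists_prop, and_assoc]
        rw [h2]
        exact (D.ι_finite δ _).isClopen_biUnion fun γ hγ => ih γ hγ.1 β
      have hc : ∀ (i : ℕ) (P : Bool → Prop), IsClopen {x : ℕ → Bool | P (x i)} := fun i P =>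
        (isClopen_discrete {b | P b}).preimage (continuous_apply i)
      have h3 : IsClopen {x : ℕ → Bool | ∀ i < D.k δ α, x i = true → D.agree β δ i} := by
        have h4 : {x : ℕ → Bool | ∀ i < D.k δ α, x i = true → D.agree β δ i} =
            ⋂ i ∈ {i | i < D.k δ α}, {x : ℕ → Bool | x i = true → D.agree β δ i} := by
          ext x
          simp
        rw [h4]
        exact (Set.finite_lt_nat _).isClopen_biInter fun i _ =>
          hc i fun b => b = true → D.agree β δ i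
      exact (ih α hα.1 β).inter (hK.compl.inter ((hc (D.k δ α) fun b => b = true).inter h3))
    · have : {x | (⟨β, x⟩ : Sp D) ∈ D.W β} = univ := eq_univ_of_forall (D.self_mem_W β)
      rw [this]
      exact isClopen_univ
    · have : {x | (⟨β, x⟩ : Sp D) ∈ D.W δ} = ∅ :=
        eq_empty_of_forall_notMem fun x hx => absurd (D.lev_le hx) (not_le.2 h)
      rw [this]
      exact isClopen_empty

/-- The filter of neighbourhoods of the level `δ`. -/
def Φ (δ : Ω) : Filter (Sp D) where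
  sets := {S | ∃ F : Set Ω, F.Finite ∧ F ⊆ Iio δ ∧ ∀ z ∈ D.W δ, (∀ γ ∈ F, z ∉ D.W γ) → z ∈ S}
  univ_sets := ⟨∅, finite_empty, empty_subset _, fun _ _ _ => trivial⟩
  sets_of_superset := fun ⟨F, h1, h2, h3⟩ h => ⟨F, h1, h2, fun z hz hz' => h (h3 z hz hz')⟩
  inter_sets := fun ⟨F, h1, h2, h3⟩ ⟨F', h1', h2', h3'⟩ =>
    ⟨F ∪ F', h1.union h1', union_subset h2 h2', fun z hz hz' =>
      ⟨h3 z hz fun γ hγ => hz' γ (Or.inl hγ), h3' z hz fun γ hγ => hz' γ (Or.inr hγ)⟩⟩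

theorem mem_Φ {δ : Ω} {S : Set (Sp D)} : S ∈ D.Φ δ ↔
    ∃ F : Set Ω, F.Finite ∧ F ⊆ Iio δ ∧ ∀ z ∈ D.W δ, (∀ γ ∈ F, z ∉ D.W γ) → z ∈ S := Iff.rfl

theorem ev_mem (δ : Ω) : ∀ᶠ z in D.Φ δ, z ∈ D.W δ :=
  ⟨∅, finite_empty, empty_subset _, fun _ hz _ => hz⟩

theorem ev_notMem {γ δ : Ω} (h : γ < δ) : ∀ᶠ z in D.Φ δ, z ∉ D.W γ :=
  ⟨{γ}, finite_singleton _, singleton_subset_iff.2 h, fun _ _ hz => hz γ rfl⟩

theorem ev_agree (δ : Ω) (i : ℕ) : ∀ᶠ z in D.Φ δ, z.pt i = true → D.agree z.lev δ i := by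
  refine ⟨{α | α < δ ∧ D.k δ α < i + 1}, D.k_finite δ _, fun α hα => hα.1, fun z hz hz' hi => ?_⟩
  rcases D.mem_W.1 hz with h | ⟨α, hα, h⟩
  · intro l _
    rw [h]
  · refine h.2.2.2 i ?_ hi
    by_contra hc
    exact hz' α ⟨hα, by omega⟩ h.1

theorem ev_iff (η : Ω) : ∀ γ, ∀ᶠ z in D.Φ γ, (z ∈ D.W η ↔ (⟨γ, z.pt⟩ : Sp D) ∈ D.W η) := by
  induction η using WellFoundedLT.induction with
  | ind δ ih =>
    intro γ
    rcases lt_trichotomy γ δ with h | rfl | h
    · have hfin := D.k_finite δ (D.ι δ γ + 1)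
      have h1 : ∀ α ∈ {α | α < δ ∧ D.k δ α < D.ι δ γ + 1}, ∀ᶠ z in D.Φ γ,
          (z ∈ D.U (D.W α) (D.K D.W δ) δ (D.k δ α) ↔
            (⟨γ, z.pt⟩ : Sp D) ∈ D.U (D.W α) (D.K D.W δ) δ (D.k δ α)) := by
        intro α hα
        filter_upwards [ih α hα.1 γ,
          (eventually_all_finite (D.ι_finite δ (D.k δ α))).2 fun η hη => ih η hη.1 γ,
          (eventually_all_finite (Set.finite_lt_nat (D.k δ α))).2 fun i _ => D.ev_agree γ i]
          with z h2 h3 h4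
        refine and_congr h2 (and_congr (not_congr ?_) (and_congr Iff.rfl ?_))
        · exact exists_congr fun η => and_congr_right fun h5 => and_congr_right fun h6 =>
            h3 η ⟨h5, h6⟩
        · refine forall_congr' fun i => forall_congr' fun hi => forall_congr' fun h5 => ?_
          have h6 := h4 i hi h5
          exact forall_congr' fun l => forall_congr' fun hl => by rw [h6 l hl]
      filter_upwards [(eventually_all_finite hfin).2 h1, D.ev_mem γ] with z h2 h3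
      rw [D.mem_W_iff_of_mem h h3, D.mem_W_iff_of_mem h (D.self_mem_W γ z.pt)]
      exact exists_congr fun α => and_congr_right fun hα => h2 α hα
    · filter_upwards [D.ev_mem γ] with z hz using iff_of_true hz (D.self_mem_W _ _)
    · filter_upwards [D.ev_notMem h] with z hz using
        iff_of_false hz fun h1 => absurd (D.lev_le h1) (not_le.2 h)

/-- Almost all lower levels whose enumeration agrees with that of `δ` come close. -/
theorem accumulate {δ : Ω} {S : Set (Sp D)} (hS : S ∈ D.Φ δ) {n : ℕ} {q : ℕ → Bool}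
    (hq : q ∈ T n) : {α | α < δ ∧ D.agree α δ n ∧
      ¬ ∃ x : ℕ → Bool, (∀ i < n, x i = q i) ∧ (⟨α, x⟩ : Sp D) ∈ S}.Finite := by
  obtain ⟨F, hF, hFδ, hFS⟩ := hS
  obtain ⟨N, hN⟩ := (hF.image (D.ι δ)).bddAbove
  refine (D.k_finite δ (max n (N + 1))).subset ?_
  rintro α ⟨hα, hag, hno⟩
  refine ⟨hα, ?_⟩
  by_contra hc
  have h1 : n ≤ D.k δ α := (le_max_left _ _).trans (not_lt.1 hc)
  have h2 : N + 1 ≤ D.k δ α := (le_max_right _ _).trans (not_lt.1 hc)
  have h3 : Function.update q (D.k δ α) true ∈ T (D.k δ α + 1) := fun i hi => by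
    rw [Function.update_of_ne (by omega)]
    exact hq i (by omega)
  have h4 := D.k_spec δ α _ h3
  refine hno ⟨Function.update q (D.k δ α) true, fun i hi => Function.update_of_ne (by omega) _ _,
    hFS _ (D.mem_W.2 (Or.inr ⟨α, hα, D.self_mem_W _ _, h4, by simp, fun i hi hi' => ?_⟩))
      fun γ hγ hz => h4 ⟨γ, hFδ hγ, ?_, hz⟩⟩
  · have h5 : q i = true := by
      rw [← hi']
      exact (Function.update_of_ne (by omega) _ _).symm
    have h6 : i < n := by
      by_contra h7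
      rw [hq i (not_lt.1 h7)] at h5
      exact Bool.false_ne_true h5
    exact fun l hl => hag l (hl.trans h6)
  · have := hN ⟨γ, hγ, rfl⟩
    omega

end Dat

end Pool.Agent.Lib.MP_1f0905_gt
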