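import Mathlib

/-!
Definitions used in the statement: locally metrizable spaces, weight, perfect maps, perfect
preimages of the first uncountable ordinal, quasi developable spaces.
-/

open Set TopologicalSpace

namespace Pool.Agent.Lib.MP_1f0905_gt

/-- Every point has an open neighbourhood which is metrizable in the subspace topology. -/
def LocallyMetrizable (X : Type) [TopologicalSpace X] : Prop :=
  ∀ x : X, ∃ U : Set X, IsOpen U ∧ x ∈ U ∧ MetrizableSpace U

/-- The space has a base of cardinality at most `κ`. -/
def WeightLE (X : Type) [TopologicalSpace X] (κ : Cardinal.{0}) : Prop :=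
  ∃ B : Set (Set X), IsTopologicalBasis B ∧ Cardinal.mk B ≤ κ

/-- A continuous closed map with compact fibres. -/
def IsPerfectMap {Z Y : Type*} [TopologicalSpace Z] [TopologicalSpace Y] (f : Z → Y) : Prop :=
  Continuous f ∧ IsClosedMap f ∧ ∀ y : Y, IsCompact (f ⁻¹' {y})

/-- Some subspace maps perfectly onto the space of countable ordinals (order topology). -/
def ContainsPerfectPreimageOfOmegaOne (X : Type) [TopologicalSpace X] : Prop :=
  ∃ (Z : Set X) (f : Z → Iio (Ordinal.omega.{0} 1)), IsPerfectMap f ∧ Function.Surjective f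

/-- The star of a point with respect to a family of sets. -/
def star {X : Type} (x : X) (G : Set (Set X)) : Set X :=
  ⋃₀ {U | U ∈ G ∧ x ∈ U}

/-- Quasi developable space. -/
def QuasiDevelopable (X : Type) [TopologicalSpace X] : Prop :=
  ∃ G : ℕ → Set (Set X), (∀ n, ∀ U ∈ G n, IsOpen U) ∧
    ∀ (x : X) (U : Set X), IsOpen U → x ∈ U → ∃ n, x ∈ star x (G n) ∧ star x (G n) ⊆ U

end Pool.Agent.Lib.MP_1f0905_gt
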