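import Mathlib
import Pool.Agent.Lib.Common.ZfcProv.Defs

/-!
The sentence of set theory which says that some Hausdorff, locally compact, locally metrizable
space of weight at most `ℵ₁` contains no perfect preimage of `ω₁` and is not quasi developable.
In the formulas `o` is the name of `ω` and `w` is the name of `ω₁`.
-/

set_option autoImplicit false

namespace Pool.Agent.Lib.MP_60e7f9_lc.Prov

/-- `T` is a topology on `X`. -/
def top (X T : ℕ) : F := and (allIn T fun U => sub U X) (and (mem X T)
  (and (allIn T fun U => allIn T fun V => exIn T fun W => res W U V)
    (all fun S => imp (sub S T)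
      (exIn T fun W => all fun z => iff (mem z W) (exIn S fun U => mem z U)))))

/-- The space `(X, T)` is Hausdorff. -/
def haus (X T : ℕ) : F := allIn X fun x => allIn X fun y => imp (neg (eq x y))
  (exIn T fun U => exIn T fun V => and (mem x U) (and (mem y V)
    (allIn U fun z => neg (mem z V))))

/-- The family `C` covers `K`. -/
def cov (C K : ℕ) : F := allIn K fun x => exIn C fun U => mem x U

/-- `K` is compact: every cover of `K` by open sets has a finite subcover. -/
def cpt (o T K : ℕ) : F := all fun C => imp (sub C T) (imp (cov C K)
  (ex fun D => and (sub D C) (and (exIn o fun n => le D n) (cov D K))))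

/-- Every point has a compact neighbourhood. -/
def lcpt (o X T : ℕ) : F := allIn X fun x => exIn T fun U => ex fun K =>
  and (mem x U) (and (sub U K) (and (sub K X) (cpt o T K)))

/-- `d (x, y) = v` -/
def dst (d x y v : ℕ) : F := ex fun p => and (opr p x y) (app d p v)

/-- There is a function `d : U × U → ω + 1` such that `2 ^ (- d (x, y))`, with `2 ^ (- ω) = 0`,
is a metric on `U` (an ultrametric) whose open sets are the traces on `U` of the open sets. -/
def metr (o T U : ℕ) : F := ex fun d =>
  and (allIn U fun x => allIn U fun y => ex fun v => and (dst d x y v)
      (and (all fun u => imp (dst d x y u) (eq u v)) (and (or (mem v o) (eq v o))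
        (and (iff (eq v o) (eq x y)) (dst d y x v)))))
    (and (allIn U fun x => allIn U fun y => allIn U fun z => all fun a => all fun b =>
        all fun c => imp (dst d x y a) (imp (dst d y z b) (imp (dst d x z c)
          (or (sub a c) (sub b c)))))
      (all fun V => imp (sub V U) (iff (exIn T fun O => res V U O)
        (allIn V fun x => exIn o fun n => allIn U fun y => all fun v =>
          imp (dst d x y v) (imp (mem n v) (mem y V))))))

/-- Every point has a metrizable open neighbourhood. -/
def lmetr (o X T : ℕ) : F := allIn X fun x => exIn T fun U => and (mem x U) (metr o T U)

/-- The topology `T` has a base of size at most `|w|`. -/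
def wt (T w : ℕ) : F := ex fun B => and (sub B T) (and (le B w)
  (allIn T fun U => allIn U fun x => exIn B fun V => and (mem x V) (sub V U)))

/-- `V` is open in the order topology of the ordinal `w`: each `a ∈ V` is `0` or has an interval
`(b, a]` inside `V`. -/
def oop (w V : ℕ) : F := and (sub V w) (allIn V fun a => or (emp a)
  (exIn a fun b => allIn a fun c => imp (mem b c) (mem c V)))

/-- `f` is a perfect map of the subspace `Z` onto `w`: a function on `Z` with range `w` which is
continuous and closed and has compact fibres. -/
def perf (o w T Z f : ℕ) : F := and (fn f Z)
  (and (all fun a => iff (mem a w) (ex fun z => app f z a))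
    (and (all fun V => imp (oop w V) (exIn T fun O => all fun z => all fun a =>
        imp (app f z a) (iff (mem z O) (mem a V))))
      (and (allIn T fun O => ex fun V => and (oop w V) (allIn w fun a =>
          iff (neg (mem a V)) (ex fun z => and (app f z a) (neg (mem z O)))))
        (allIn w fun a => ex fun K => and (all fun z => iff (mem z K) (app f z a))
          (cpt o T K)))))

/-- `s` is the star of `x` in the family `H`. -/
def st (s x H : ℕ) : F :=
  all fun z => iff (mem z s) (exIn H fun V => and (mem x V) (mem z V))

/-- The topology `T` is quasi developable. -/
def qdev (o T : ℕ) : F := ex fun G => and (fn G o)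
  (and (all fun n => all fun H => imp (app G n H) (sub H T))
    (allIn T fun U => allIn U fun x => ex fun n => ex fun H => ex fun s =>
      and (app G n H) (and (st s x H) (and (mem x s) (sub s U)))))

/-- With `o = ω` and `w = ω₁`, the set of countable ordinals, there is a Hausdorff, locally
compact, locally metrizable space of weight at most `ℵ₁` which has no subspace with a perfect
map onto `ω₁` and is not quasi developable. -/
def noDich : F := ex fun o => ex fun w =>
  and (all fun n => iff (mem n o) (nat n))
    (and (all fun a => iff (mem a w) (and (ord a) (le a o)))
      (ex fun X => ex fun T => and (top X T) (and (haus X T) (and (lcpt o X T)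
        (and (lmetr o X T) (and (wt T w)
          (and (neg (ex fun Z => ex fun f => and (sub Z X) (perf o w T Z f)))
            (neg (qdev o T)))))))))

end Pool.Agent.Lib.MP_60e7f9_lc.Prov
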