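import Mathlib
import Pool.Agent.Lib.Common.ZfcProv.Sem

/-!
Finite sets, tail filters on ordinals, fusion sequences and closing off in an arbitrary model of
ZFC.
-/

set_option autoImplicit false
set_option linter.unusedSectionVars false
set_option linter.unusedVariables false
set_option synthInstance.maxSize 100000

namespace Pool.Agent.Lib.MP_60e7f9_lc.Prov

open Pool.Agent.Lib.Common.Forcing

variable {M : Type} [Mod M] {α : Type} [Env M α]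

/-- Finite sets. -/
def Fi (A : M) : Prop := ∃ n ∈ om M, Le A n

instance (s : α → M) [Tm s] : Df M fun a => Fi (s a) := by
  unfold Fi; infer_instance

theorem Fi.le {A B : M} (h : Fi B) (h' : Le A B) : Fi A :=
  h.imp fun _ hn => ⟨hn.1, h'.trans hn.2⟩

theorem Fi.sub {A B : M} (h : Fi B) (h' : A ⊆ B) : Fi A := h.le (le_of_sub h')

theorem fi_om {n : M} (hn : n ∈ om M) : Fi n := ⟨n, hn, le_rfl'⟩

theorem fi_emp : Fi (∅ : M) := fi_om emp_om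

theorem Fi.union {A B : M} (hA : Fi A) (hB : Fi B) : Fi (A ∪ B) := by
  obtain ⟨m, h1, h2⟩ := hB
  exact fin_union hA m h1 B h2

theorem fi_one (x : M) : Fi (up x x) :=
  ⟨_, sc_om emp_om, (le_of_sub fun z hz => by simpa using hz).trans (le_insert x le_rfl')⟩

theorem fi_iff {A : M} : Fi A ↔ ¬ Le (om M) A := crd_om.not_le.symm

theorem Fi.co {A : M} (h : Fi A) : Le A (om M) := by
  obtain ⟨n, h1, h2⟩ := h
  exact h2.trans (le_of_sub (od_om.sub h1))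

theorem fi_ind (p : M → Prop) [hp : Df M fun z : Unit × M => p z.2] {S : M} (hS : Fi S)
    (h0 : p ∅) (h1 : ∀ A, ∀ x ∈ S, p A → p (A ∪ up x x)) : p S := by
  have i1 := @dfR1 M _ p hp
  obtain ⟨n, hn, hS⟩ := hS
  refine om_ind (fun n => ∀ A, A ⊆ S → Le A n → p A) (fun A _ ⟨f, f1, _⟩ => ?_)
    (fun m _ ih A hA ⟨f, f1, f2⟩ => ?_) n hn S sub_rfl hS
  · rwa [s_emp.1 fun z hz => m_emp _ (f1 z hz)]
  · obtain ⟨B, hB⟩ := sep A fun y => ap f y ∈ m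
    have h2 := ih B (fun x hx => hA x ((hB x).1 hx).1) ⟨f, fun x hx => ((hB x).1 hx).2,
      fun x hx y hy => f2 x ((hB x).1 hx).1 y ((hB y).1 hy).1⟩
    by_cases h : ∃ x ∈ A, ap f x = m
    · obtain ⟨x, a, b⟩ := h
      have : A = B ∪ up x x := ext' fun z => by
        simp only [m_union, m_up, or_self, hB]
        exact ⟨fun hz => (m_sc.1 (f1 z hz)).imp (⟨hz, ·⟩) fun e => f2 z hz x a (e.trans b.symm),
          fun hz => hz.elim (·.1) (· ▸ a)⟩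
      exact this ▸ h1 B x (hA x a) h2
    · have : A = B := ext' fun z => (hB z).trans ⟨(·.1), fun hz =>
        ⟨hz, (m_sc.1 (f1 z hz)).resolve_right fun e => h ⟨z, hz, e⟩⟩⟩ |>.symm
      exact this ▸ h2

/-- The class `p` is covered by a set in `I`. -/
def Cv (I p : M → Prop) : Prop := ∃ A, I A ∧ ∀ x, p x → x ∈ A

theorem dfUp (p : α → M → Prop) [h : Df M fun z : α × M => p z.1 z.2] :
    Df M fun z : (α × M) × M => p z.1.1 z.2 :=
  @Df.comp M _ _ _ _ _ (fun z : α × M => p z.1 z.2) _ h (Prj.up fun z : α × M => z.1)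

instance (I p : α → M → Prop) [Df M fun z : α × M => I z.1 z.2]
    [Df M fun z : α × M => p z.1 z.2] : Df M fun a => Cv (I a) (p a) := by
  have := dfUp p
  unfold Cv; infer_instance

theorem Cv.mono {I p q : M → Prop} (h : Cv I q) (h' : ∀ x, p x → q x) : Cv I p :=
  h.imp fun _ hA => ⟨hA.1, fun x hx => hA.2 x (h' x hx)⟩

theorem cv_mem {I : M → Prop} {A : M} (h : I A) : Cv I (· ∈ A) := ⟨A, h, fun _ h => h⟩

/-- `I` contains the empty set and is closed under unions. -/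
def Idl (I : M → Prop) : Prop := I ∅ ∧ ∀ A B, I A → I B → I (A ∪ B)

theorem idl_fi : Idl (Fi : M → Prop) := ⟨fi_emp, fun _ _ => Fi.union⟩

theorem Idl.or {I p q : M → Prop} (hI : Idl I) (h : Cv I p) (h' : Cv I q) :
    Cv I fun x => p x ∨ q x := by
  obtain ⟨A, a1, a2⟩ := h
  obtain ⟨B, b1, b2⟩ := h'
  exact ⟨_, hI.2 A B a1 b1, fun x hx => m_union.2 (hx.imp (a2 x) (b2 x))⟩

theorem Idl.bU {I : M → Prop} (hI : Idl I) [hI' : Df M fun z : Unit × M => I z.2]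
    {p : M → Prop} [hp : Df M fun z : Unit × M => p z.2] (h : Cv Fi p) (r : M → M → Prop)
    [hr : Df M fun z : (Unit × M) × M => r z.1.2 z.2] (h' : ∀ a, p a → Cv I (r a)) :
    Cv I fun x => ∃ a, p a ∧ r a x := by
  have i1 := @dfR1 M _ I hI'
  have i2 := @dfR1 M _ p hp
  have i3 := @dfR2 M _ r hr
  obtain ⟨S, s1, s2⟩ := h
  refine (fi_ind (fun S => Cv I fun x => ∃ a ∈ S, p a ∧ r a x) s1 ⟨∅, hI.1, by simp⟩
    fun A a _ ih => ?_).mono fun x ⟨a, h1, h2⟩ => ⟨a, s2 a h1, h1, h2⟩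
  by_cases ha : p a
  · refine (hI.or ih (h' a ha)).mono fun x ⟨b, h1, h2⟩ => ?_
    simp only [m_union, m_up, or_self] at h1
    exact h1.elim (fun h => .inl ⟨b, h, h2⟩) fun e => .inr (e ▸ h2.2)
  · refine ih.mono fun x ⟨b, h1, h2⟩ => ?_
    simp only [m_union, m_up, or_self] at h1
    exact ⟨b, h1.resolve_right fun e => ha (e ▸ h2.1), h2⟩

theorem cv_le {p : M → Prop} {n : M} (hn : Fi n) {A : M} (t : M → M)
    [ht : Tm fun z : Unit × M => t z.2] (h : ∀ x, p x → x ∈ A ∧ t x ∈ n)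
    (inj : ∀ x ∈ A, ∀ y ∈ A, t x = t y → x = y) : Cv Fi p := by
  have := @tmR1 M _ t ht
  obtain ⟨B, hB⟩ := sep A fun x => t x ∈ n
  exact ⟨B, hn.le (le_tm t (fun x hx => ((hB x).1 hx).2) fun x hx y hy =>
    inj x ((hB x).1 hx).1 y ((hB y).1 hy).1), fun x hx => (hB x).2 (h x hx)⟩

theorem fi_pw : ∀ n ∈ om M, Fi (pw n) := by
  refine om_ind _ ((fi_one ∅).sub fun z hz => ?_) fun n _ ih => ?_
  · simpa using s_emp.1 fun u hu => m_emp u (m_pw.1 hz u hu)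
  · obtain ⟨B, hB⟩ := repl (pw n) fun x => x ∪ up n n
    refine (ih.union (ih.le (le_surj (fun x => x ∪ up n n) fun y hy => (hB y).1 hy))).sub
      fun z hz => m_union.2 ?_
    have hz := m_pw.1 hz
    by_cases h : n ∈ z
    · refine .inr ((hB z).2 ⟨z ∩ n, m_pw.2 fun k hk => (m_inter.1 hk).2, ext' fun k => ?_⟩)
      have := hz k
      simp only [m_union, m_inter, m_up, m_sc, or_self] at this ⊢
      exact ⟨fun h => (this h).imp (⟨h, ·⟩) id, fun h' => h'.elim (·.1) (· ▸ h)⟩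
    · exact .inl (m_pw.2 fun k hk => (m_sc.1 (hz k hk)).resolve_right fun e => h (e ▸ hk))

/-- The property `p` holds on a tail of the ordinal `k`. -/
def Evt (k : M) (p : M → Prop) : Prop := ∃ m ∈ k, ∀ n ∈ k, m ⊆ n → p n

instance (s : α → M) [Tm s] (p : α → M → Prop) [Df M fun z : α × M => p z.1 z.2] :
    Df M fun a => Evt (s a) (p a) := by
  have := dfUp p
  unfold Evt; infer_instance

theorem Evt.mono {k : M} {p q : M → Prop} (h : Evt k p) (h' : ∀ n ∈ k, p n → q n) : Evt k q :=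
  h.imp fun _ hm => ⟨hm.1, fun n hn e => h' n hn (hm.2 n hn e)⟩

theorem Evt.ex {k : M} {p : M → Prop} (h : Evt k p) : ∃ n ∈ k, p n :=
  h.imp fun m hm => ⟨hm.1, hm.2 m hm.1 sub_rfl⟩

theorem Evt.and {k : M} {p q : M → Prop} (hk : Od k) (h : Evt k p) (h' : Evt k q) :
    Evt k fun n => p n ∧ q n := by
  obtain ⟨a, a1, a2⟩ := h
  obtain ⟨b, b1, b2⟩ := h'
  exact ⟨_, hk.union_mem a1 b1, fun n hn e => ⟨a2 n hn fun z hz => e z (m_union.2 (.inl hz)),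
    b2 n hn fun z hz => e z (m_union.2 (.inr hz))⟩⟩

theorem evt_sub {k m : M} (h : m ∈ k) : Evt k (m ⊆ ·) := ⟨m, h, fun _ _ h => h⟩

theorem evt_mem {k m : M} (h : sc m ∈ k) : Evt k (m ∈ ·) := ⟨_, h, fun _ _ h => h m (mem_sc m)⟩

theorem evt_all {k : M} {p : M → Prop} (h0 : ∅ ∈ k) (h : ∀ n ∈ k, p n) : Evt k p :=
  ⟨∅, h0, fun n hn _ => h n hn⟩

theorem evt_fin {k : M} (hk : Od k) (h0 : ∅ ∈ k) {p : M → Prop}
    [hp : Df M fun z : Unit × M => p z.2] (h : Cv Fi p) (r : M → M → Prop)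
    [hr : Df M fun z : (Unit × M) × M => r z.1.2 z.2] (h' : ∀ a, p a → Evt k (r a)) :
    Evt k fun n => ∀ a, p a → r a n := by
  have i2 := @dfR1 M _ p hp
  have i3 := @dfR2 M _ r hr
  obtain ⟨S, s1, s2⟩ := h
  refine (fi_ind (fun S => Evt k fun n => ∀ a ∈ S, p a → r a n) s1 (evt_all h0 (by simp))
    fun A a _ ih => ?_).mono fun n _ h a ha => h a (s2 a ha) ha
  by_cases ha : p a
  · refine (ih.and hk (h' a ha)).mono fun n _ h b h1 h2 => ?_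
    simp only [m_union, m_up, or_self] at h1
    exact h1.elim (h.1 b · h2) (· ▸ h.2)
  · refine ih.mono fun n _ h b h1 h2 => ?_
    simp only [m_union, m_up, or_self] at h1
    exact h b (h1.resolve_right fun e => ha (e ▸ h2)) h2

/-- The first uncountable ordinal of the model. -/
noncomputable abbrev om1 (M : Type) [Mod M] : M := hs (om M)

theorem emp_om1 : (∅ : M) ∈ om1 M := om_hs od_om sub_rfl _ emp_om

theorem sc_om1 {a : M} (h : a ∈ om1 M) : sc a ∈ om1 M := sc_hs od_om sub_rfl h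

theorem co_om1 {a : M} (h : a ∈ om1 M) : Le a (om M) := (m_hs.1 h).2

theorem od_of {a : M} (h : a ∈ om1 M) : Od a := (m_hs.1 h).1

theorem evt_co {A : M} (hA : Le A (om M)) (r : M → M → Prop)
    [hr : Df M fun z : (Unit × M) × M => r z.1.2 z.2] (h : ∀ a ∈ A, Evt (om1 M) (r a)) :
    Evt (om1 M) fun n => ∀ a ∈ A, r a n := by
  have i3 := @dfR2 M _ r hr
  obtain ⟨f, -, hf⟩ := ch A (fun a m => m ∈ om1 M ∧ ∀ n ∈ om1 M, m ⊆ n → r a n) h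
  refine ⟨sU (im f A), sU_hs od_om sub_rfl ((le_im f A).trans hA) fun y hy => ?_,
    fun n hn e a ha => (hf a ha).2 n hn fun z hz => e z (m_sU.2 ⟨_, m_im.2 ⟨a, ha, rfl⟩, hz⟩)⟩
  obtain ⟨a, ha, rfl⟩ := m_im.1 hy
  exact (hf a ha).1

/-- The finite sets of natural numbers. -/
theorem ex_fs : ∃ S : M, Le S (om M) ∧ ∀ s, s ∈ S ↔ ∃ n ∈ om M, s ⊆ n := by
  obtain ⟨B, hB⟩ := repl (om M) fun n => pw n
  refine ⟨sU B, sU_le od_om sub_rfl (le_surj (fun n => pw n) fun y hy => (hB y).1 hy)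
    fun x hx => ?_, fun s => ?_⟩
  · obtain ⟨n, hn, rfl⟩ := (hB x).1 hx
    exact (fi_pw n hn).co
  · simp [hB]

theorem evt_cofi {A : M} (hA : Le A (om M)) (r : M → M → Prop)
    [hr : Df M fun z : (Unit × M) × M => r z.1.2 z.2]
    (h : ∀ t, t ⊆ A → Fi t → Evt (om1 M) (r t)) :
    Evt (om1 M) fun n => ∀ t, t ⊆ A → Fi t → r t n := by
  obtain ⟨S, s1, s2⟩ := ex_fs (M := M)
  obtain ⟨f, f1, f2⟩ := hA
  obtain ⟨B, hB⟩ := sep (pw A) Fi
  refine (evt_co (A := B) ((le_tm (fun t => im f t) (fun t ht => ?_) fun t ht u hu e => ?_).trans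
    s1) r fun t ht => h t (m_pw.1 ((hB t).1 ht).1) ((hB t).1 ht).2).mono
      fun n _ h t h1 h2 => h t ((hB t).2 ⟨m_pw.2 h1, h2⟩)
  · obtain ⟨h1, h2⟩ := (hB t).1 ht
    obtain ⟨n, hn, h3⟩ := (evt_fin od_om emp_om (cv_mem h2) (fun x n => ap f x ∈ n)
      fun x hx => evt_mem (sc_om (f1 x (m_pw.1 h1 x hx)))).ex
    refine (s2 _).2 ⟨n, hn, fun y hy => ?_⟩
    obtain ⟨x, hx, rfl⟩ := m_im.1 hy
    exact h3 x hx
  · have key : ∀ t ∈ B, ∀ u ∈ B, im f t = im f u → t ⊆ u := fun t ht u hu e x hx => by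
      obtain ⟨y, hy, e'⟩ := m_im.1 (e ▸ m_im.2 ⟨x, hx, rfl⟩ : ap f x ∈ im f u)
      exact f2 x (m_pw.1 ((hB t).1 ht).1 x hx) y (m_pw.1 ((hB u).1 hu).1 y hy) e' ▸ hy
    exact ext (key t ht u hu e) (key u hu t ht e.symm)

/-- A class of countable ordinals that is an increasing union of `ℵ₁` finite classes is
bounded. -/
theorem evt_of_fin (p : M → Prop) [hp : Df M fun z : Unit × M => p z.2] (r : M → M → Prop)
    [hr : Df M fun z : (Unit × M) × M => r z.1.2 z.2]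
    (h0 : ∀ a, p a → a ∈ om1 M ∧ Evt (om1 M) (r a))
    (h : ¬ Evt (om1 M) fun n => ∀ a, p a → a ∈ n) :
    Evt (om1 M) fun n => ¬ Cv Fi fun a => p a ∧ r a n := by
  obtain ⟨S, hS⟩ := sep (om1 M) p
  have h1 : Le (om M) S := by
    by_contra hc
    exact h ((evt_fin (od_hs _) emp_om1 (cv_mem (fi_iff.2 hc)) (fun a n => a ∈ n) fun a ha =>
      evt_mem (sc_om1 ((hS a).1 ha).1)).mono fun n _ h a ha => h a ((hS a).2 ⟨(h0 a ha).1, ha⟩))
  obtain ⟨f, f1, f2⟩ := h1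
  have i3 := @dfR2 M _ r hr
  refine (evt_co le_rfl' (fun i n => r (ap f i) n) fun i hi =>
    (h0 _ ((hS _).1 (f1 i hi)).2).2).mono fun n _ h2 ⟨A, a1, a2⟩ => ?_
  exact fi_iff.1 a1 ⟨f, fun i hi => a2 _ ⟨((hS _).1 (f1 i hi)).2, h2 i hi⟩, f2⟩

/-- Closing off. -/
theorem club (r : M → M → Prop) [hr : Df M fun z : (Unit × M) × M => r z.1.2 z.2]
    (h : ∀ a ∈ om1 M, Evt (om1 M) (r a)) :
    ∃ d ∈ om1 M, ∅ ∈ d ∧ ∀ a ∈ d, sc a ∈ d ∧ r a d := by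
  have i3 := @dfR2 M _ r hr
  obtain ⟨f, -, hf⟩ := ch (om1 M) (fun b m => m ∈ om1 M ∧ ∀ n ∈ om1 M, m ⊆ n →
    b ∈ n ∧ ∀ a ∈ b, r a n) fun b hb => (evt_mem (sc_om1 hb)).and (od_hs _)
      (evt_co (co_om1 hb) r fun a ha => h a ((od_hs _).tr ha hb))
  obtain ⟨c, -, c0, c1⟩ := rec_om (sc (∅ : M)) fun _ x => ap f x
  have c2 : ∀ n ∈ om M, ap c n ∈ om1 M :=
    om_ind _ (c0 ▸ sc_om1 emp_om1) fun n hn ih => c1 n hn ▸ (hf _ ih).1
  have c3 : ∀ n ∈ om M, ap c n ⊆ sU (im c (om M)) := fun n hn z hz =>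
    m_sU.2 ⟨_, m_im.2 ⟨n, hn, rfl⟩, hz⟩
  have hd : sU (im c (om M)) ∈ om1 M := sU_hs od_om sub_rfl (le_im _ _) fun y hy => by
    obtain ⟨n, hn, rfl⟩ := m_im.1 hy
    exact c2 n hn
  refine ⟨_, hd, c3 _ emp_om _ (c0 ▸ mem_sc _), fun a ha => ?_⟩
  obtain ⟨_, h1, h2⟩ := m_sU.1 ha
  obtain ⟨n, hn, rfl⟩ := m_im.1 h1
  have := (hf _ (c2 n hn)).2 _ hd (c1 n hn ▸ c3 _ (sc_om hn))
  exact ⟨((od_of (c2 n hn)).mem h2).sc.sub_mem (od_of hd) ((od_of (c2 n hn)).sc_sub h2) this.1,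
    this.2 a h2⟩

theorem inter_inter {x m n : M} (h : m ⊆ n) : x ∩ n ∩ m = x ∩ m := ext' fun z => by
  simp only [m_inter]
  exact ⟨fun h => ⟨h.1.1, h.2⟩, fun h' => ⟨⟨h'.1, h z h'.2⟩, h'.2⟩⟩

theorem inter_sub {x n : M} : x ∩ n ⊆ n := fun _ h => (m_inter.1 h).2

theorem inter_mono {x y m n : M} (h : m ⊆ n) (e : x ∩ n = y ∩ n) : x ∩ m = y ∩ m := by
  rw [← inter_inter h, e, inter_inter h]

theorem inter_self {s n : M} (h : s ⊆ n) : s ∩ n = s :=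
  ext' fun z => m_inter.trans ⟨(·.1), fun h' => ⟨h', h z h'⟩⟩

theorem inter_iff {x y n i : M} (e : x ∩ n = y ∩ n) (h : i ∈ n) : i ∈ x ↔ i ∈ y := by
  have : i ∈ x ∩ n ↔ i ∈ y ∩ n := by rw [e]
  simpa [h] using this

/-- Fusion of a sequence of end extensions. -/
theorem fusion (I : M → M → M → Prop)
    [hI : Df M fun z : ((Unit × M) × M) × M => I z.1.1.2 z.1.2 z.2] (h0 : I ∅ ∅ ∅)
    (h : ∀ n ∈ om M, ∀ m ∈ om M, ∀ s, s ⊆ m → I n s m →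
      ∃ l ∈ om M, ∃ t, t ⊆ l ∧ m ⊆ l ∧ t ∩ m = s ∧ I (sc n) t l) :
    ∃ x, x ⊆ om M ∧ ∀ n ∈ om M, ∃ m ∈ om M, I n (x ∩ m) m := by
  have i3 := @dfR3 M _ I hI
  obtain ⟨f, -, hf⟩ := ch (pr (om M) (pr (pw (om M)) (om M))) (fun p q =>
    p1 (p2 p) ⊆ p2 (p2 p) → I (p1 p) (p1 (p2 p)) (p2 (p2 p)) → p2 q ∈ om M ∧ p1 q ⊆ p2 q ∧
      p2 (p2 p) ⊆ p2 q ∧ p1 q ∩ p2 (p2 p) = p1 (p2 p) ∧ I (sc (p1 p)) (p1 q) (p2 q))
    fun p hp => by
      obtain ⟨n, hn, _, hq, rfl⟩ := m_pr.1 hp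
      obtain ⟨s, -, m, hm, rfl⟩ := m_pr.1 hq
      simp only [p1_op, p2_op]
      by_cases h1 : s ⊆ m ∧ I n s m
      · obtain ⟨l, a1, t, a2⟩ := h n hn m hm s h1.1 h1.2
        exact ⟨op t l, fun _ _ => by simpa using ⟨a1, a2⟩⟩
      · exact ⟨∅, fun a b => absurd ⟨a, b⟩ h1⟩
  obtain ⟨c, -, c0, c1⟩ := rec_om (op (∅ : M) ∅)
    fun n x => ap f (op n (op (p1 x) (p2 x)))
  have st : ∀ n ∈ om M, p2 (ap c n) ∈ om M ∧ p1 (ap c n) ⊆ p2 (ap c n) ∧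
      I n (p1 (ap c n)) (p2 (ap c n)) → (p2 (ap c (sc n)) ∈ om M ∧
      p1 (ap c (sc n)) ⊆ p2 (ap c (sc n)) ∧ p2 (ap c n) ⊆ p2 (ap c (sc n)) ∧
      p1 (ap c (sc n)) ∩ p2 (ap c n) = p1 (ap c n) ∧
      I (sc n) (p1 (ap c (sc n))) (p2 (ap c (sc n)))) := fun n hn ih => by
    have := hf (op n (op (p1 (ap c n)) (p2 (ap c n)))) (op_pr.2 ⟨hn, op_pr.2
      ⟨m_pw.2 (sub_trans ih.2.1 (od_om.sub ih.1)), ih.1⟩⟩)
    simp only [p1_op, p2_op] at this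
    rw [c1 n hn]
    exact this ih.2.1 ih.2.2
  have c2 : ∀ n ∈ om M, p2 (ap c n) ∈ om M ∧ p1 (ap c n) ⊆ p2 (ap c n) ∧
      I n (p1 (ap c n)) (p2 (ap c n)) :=
    om_ind _ (by simpa [c0] using ⟨emp_om, sub_rfl, h0⟩) fun n hn ih =>
      ⟨(st n hn ih).1, (st n hn ih).2.1, (st n hn ih).2.2.2.2⟩
  have c3 : ∀ k ∈ om M, ∀ n ∈ om M, n ⊆ k → p2 (ap c n) ⊆ p2 (ap c k) ∧
      p1 (ap c k) ∩ p2 (ap c n) = p1 (ap c n) := by
    refine om_ind _ (fun n hn e => ?_) fun k hk ih n hn e => ?_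
    · obtain rfl := s_emp.1 fun z hz => m_emp z (e z hz)
      exact ⟨sub_rfl, inter_self (c2 _ hn).2.1⟩
    · rcases om_sub _ (sc_om hk) n hn e with rfl | e'
      · exact ⟨sub_rfl, inter_self (c2 _ hn).2.1⟩
      · obtain ⟨a1, a2⟩ := ih n hn ((m_sc.1 e').elim ((od_om.mem hk).sub) (· ▸ sub_rfl))
        obtain ⟨-, -, b1, b2, -⟩ := st k hk (c2 k hk)
        exact ⟨sub_trans a1 b1, by rw [← inter_inter a1, b2, a2]⟩
  obtain ⟨x, hx⟩ := sep (om M) fun i => ∃ k ∈ om M, i ∈ p1 (ap c k)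
  refine ⟨x, fun i hi => ((hx i).1 hi).1, fun n hn => ⟨_, (c2 n hn).1, ?_⟩⟩
  have : x ∩ p2 (ap c n) = p1 (ap c n) := ext' fun i => by
    rw [m_inter, hx]
    refine ⟨fun ⟨⟨_, k, hk, h1⟩, h2⟩ => ?_, fun hi => ⟨⟨od_om.tr ((c2 n hn).2.1 i hi) (c2 n hn).1,
      n, hn, hi⟩, (c2 n hn).2.1 i hi⟩⟩
    rcases om_tri hk n hn with e | e
    · exact (m_inter.1 ((c3 n hn k hk ((od_om.mem hn).sub e)).2 ▸ h1)).1
    · exact (c3 k hk n hn e).2 ▸ m_inter.2 ⟨h1, h2⟩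
  exact this ▸ (c2 n hn).2.2

/-- Compactness of the Cantor space. -/
theorem fan (Q : M → M → Prop) [hQ : Df M fun z : (Unit × M) × M => Q z.1.2 z.2]
    (h1 : ∀ x, x ⊆ om M → ∃ n ∈ om M, Q (x ∩ n) n)
    (h2 : ∀ n ∈ om M, ∀ s, Q s (sc n) → Q (s ∪ up n n) (sc n) → Q s n) : Q ∅ ∅ := by
  have i3 := @dfR2 M _ Q hQ
  by_contra hc
  obtain ⟨x, x1, x2⟩ := fusion (fun n s m => m = n ∧ ¬ Q s m) ⟨rfl, hc⟩ (by
    rintro _ hn n - s hs ⟨rfl, h⟩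
    by_cases h3 : Q s (sc n)
    · refine ⟨_, sc_om hn, s ∪ up n n, fun z hz => ?_, sub_sc n, ext' fun z => ?_, rfl,
        fun h4 => h (h2 n hn s h3 h4)⟩
      · exact m_union.2 ((m_union.1 hz).imp_left (hs z))
      · simp only [m_inter, m_union, m_up, or_self]
        exact ⟨fun h => h.1.resolve_right fun e => not_mem_self n (e ▸ h.2),
          fun h => ⟨.inl h, hs z h⟩⟩
    · exact ⟨_, sc_om hn, s, sub_trans hs (sub_sc n), sub_sc n, inter_self hs, rfl, h3⟩)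
  obtain ⟨n, hn, h⟩ := h1 x x1
  obtain ⟨_, -, rfl, h'⟩ := x2 n hn
  exact h' h

/-- The Baire category theorem for the Cantor space. -/
theorem baire (L : M → M → Prop) [hL : Df M fun z : (Unit × M) × M => L z.1.2 z.2]
    (h : ∀ x, x ⊆ om M → ∃ n ∈ om M, L n x) : ∃ n ∈ om M, ∃ m ∈ om M, ∃ s, s ⊆ m ∧
      ∀ l ∈ om M, m ⊆ l → ∀ y, y ∩ m = s → ∃ x, L n x ∧ x ∩ l = y ∩ l := by
  have i3 := @dfR2 M _ L hL
  by_contra hc
  obtain ⟨x, x1, x2⟩ := fusion (fun n s m => ∀ j, n = sc j → j ∈ om M → ∀ x, L j x → x ∩ m ≠ s)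
    (fun j e => absurd e.symm (sc_ne j)) fun n hn m hm s hs _ => by
      by_contra h'
      refine hc ⟨n, hn, m, hm, s, hs, fun l hl e y hy => by_contra fun h1 => h' ⟨l, hl, y ∩ l,
        inter_sub, e, by rw [inter_inter e, hy], fun j e' hj x hx e'' => h1 ⟨x, ?_, e''⟩⟩⟩
      rwa [sc_inj (od_om.mem hn) (od_om.mem hj) e']
  obtain ⟨n, hn, h1⟩ := h x x1
  obtain ⟨m, -, h2⟩ := x2 _ (sc_om hn)
  exact h2 n rfl hn x h1 rfl

end Pool.Agent.Lib.MP_60e7f9_lc.Prov
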