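import Mathlib
import Pool.Agent.Lib.MP_1f0905_gt.PvKit

/-!
The system of sets `W δ` in `ω₁ × P(ω)`, defined by recursion in an arbitrary model of ZFC.
-/

set_option autoImplicit false
set_option linter.unusedSectionVars false
set_option linter.unusedVariables false
set_option synthInstance.maxSize 100000

namespace Pool.Agent.Lib.MP_60e7f9_lc.Prov

open Pool.Agent.Lib.Common.Forcing

variable {M : Type} [Mod M] {α : Type} [Env M α]

/-- The underlying set of the space. -/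
noncomputable def XX (M : Type) [Mod M] : M := pr (om1 M) (pw (om M))

theorem op_xx {d x : M} : op d x ∈ XX M ↔ d ∈ om1 M ∧ x ⊆ om M := by simp [XX]

theorem xx_op {z : M} (h : z ∈ XX M) : op (p1 z) (p2 z) = z := by
  obtain ⟨x, -, y, -, rfl⟩ := m_pr.1 h
  simp

theorem xx1 {z : M} (h : z ∈ XX M) : p1 z ∈ om1 M := (op_xx.1 ((xx_op h).symm ▸ h)).1

theorem xx2 {z : M} (h : z ∈ XX M) : p2 z ⊆ om M := (op_xx.1 ((xx_op h).symm ▸ h)).2

theorem xx_ext {z u : M} (h : z ∈ XX M) (h' : u ∈ XX M) (e : p1 z = p1 u) (e' : p2 z = p2 u) :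
    z = u := by rw [← xx_op h, ← xx_op h', e, e']

theorem om1_tr {d a : M} (h : d ∈ om1 M) (ha : a ∈ d) : a ∈ om1 M := (od_hs _).tr ha h

theorem om1_ind (p : M → Prop) [hp : Df M fun z : Unit × M => p z.2]
    (h : ∀ d ∈ om1 M, (∀ a ∈ d, p a) → p d) : ∀ d ∈ om1 M, p d := fun d hd =>
  have := @dfR1 M _ p hp
  od_ind (fun d => d ∈ om1 M → p d)
    (fun d _ ih hd => h d hd fun a ha => ih a ha (om1_tr hd ha)) d (od_of hd) hd

theorem sc_mono {j n : M} (hj : j ∈ om M) (hn : n ∈ om M) (h : j ⊆ n) : sc j ⊆ sc n :=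
  (od_om.mem hn).sc.sc_sub ((od_om.mem hj).sub_mem (od_om.mem hn).sc h (mem_sc n))

theorem mem_of_not {j n : M} (hj : j ∈ om M) (hn : n ∈ om M) (h : n ∉ sc j) : j ∈ n :=
  (om_tri hn _ (sc_om hj)).resolve_left h j (mem_sc j)

/-- `z` is in one of the first `k` sets below `d`. -/
def InK (i V d k z : M) : Prop := ∃ c ∈ d, ap (ap i d) c ∈ k ∧ z ∈ ap V c

instance (i V d k z : α → M) [Tm i] [Tm V] [Tm d] [Tm k] [Tm z] :
    Df M fun a => InK (i a) (V a) (d a) (k a) (z a) := by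
  unfold InK; infer_instance

theorem InK.mono {i V d k l z : M} (h : InK i V d k z) (h' : k ⊆ l) : InK i V d l z :=
  h.imp fun _ h => ⟨h.1, h' _ h.2.1, h.2.2⟩

/-- The enumerations of `a` and `d` agree below `n`. -/
def Agr (i a d n : M) : Prop :=
  ∀ c, ∀ l ∈ n, (c ∈ a ∧ ap (ap i a) c = l ↔ c ∈ d ∧ ap (ap i d) c = l)

instance (i b d n : α → M) [Tm i] [Tm b] [Tm d] [Tm n] :
    Df M fun a => Agr (i a) (b a) (d a) (n a) := by
  unfold Agr; infer_instance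

/-- The depth at which the level `a` is attached to `d`. -/
noncomputable def kk (i V d a : M) : M :=
  (sep (ap (ap i d) a) fun j => ∀ q, q ⊆ sc (sc j) → ¬ InK i V d (sc j) (op a q)).choose

theorem m_kk {i V d a j : M} : j ∈ kk i V d a ↔
    j ∈ ap (ap i d) a ∧ ∀ q, q ⊆ sc (sc j) → ¬ InK i V d (sc j) (op a q) :=
  (sep (ap (ap i d) a) fun j => ∀ q, q ⊆ sc (sc j) → ¬ InK i V d (sc j) (op a q)).choose_spec j

instance (i V d b : α → M) [Tm i] [Tm V] [Tm d] [Tm b] :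
    Tm fun a => kk (i a) (V a) (d a) (b a) :=
  .ofMem _ (by simp only [m_kk]; infer_instance)

/-- The piece of the level set of `a` that is attached to `d`. -/
def InU (i V d a z : M) : Prop := z ∈ ap V a ∧ ¬ InK i V d (kk i V d a) z ∧
  kk i V d a ∈ p2 z ∧ ∀ n ∈ kk i V d a, n ∈ p2 z → Agr i (p1 z) d n

instance (i V d b z : α → M) [Tm i] [Tm V] [Tm d] [Tm b] [Tm z] :
    Df M fun a => InU (i a) (V a) (d a) (b a) (z a) := by
  unfold InU; infer_instance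

/-- One step of the recursion. -/
noncomputable def stp (i V d : M) : M :=
  (sep (XX M) fun z => p1 z = d ∨ ∃ a ∈ d, InU i V d a z).choose

theorem m_stp {i V d z : M} : z ∈ stp i V d ↔ z ∈ XX M ∧ (p1 z = d ∨ ∃ a ∈ d, InU i V d a z) :=
  (sep (XX M) fun z => p1 z = d ∨ ∃ a ∈ d, InU i V d a z).choose_spec z

instance (i V d : α → M) [Tm i] [Tm V] [Tm d] : Tm fun a => stp (i a) (V a) (d a) :=
  .ofMem _ (by simp only [m_stp]; infer_instance)

/-- The data of the construction. -/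
structure Dt (i W : M) : Prop where
  mem : ∀ d ∈ om1 M, ∀ c ∈ d, ap (ap i d) c ∈ om M
  inj : ∀ d ∈ om1 M, ∀ c ∈ d, ∀ c' ∈ d, ap (ap i d) c = ap (ap i d) c' → c = c'
  spec : ∀ d ∈ om1 M, ∀ z, z ∈ ap W d ↔ z ∈ XX M ∧ (p1 z = d ∨ ∃ a ∈ d, InU i W d a z)

theorem ex_dt : ∃ i W : M, Dt i W := by
  obtain ⟨i, -, hi⟩ := ch (om1 M) (fun d f => (∀ c ∈ d, ap f c ∈ om M) ∧
    ∀ c ∈ d, ∀ c' ∈ d, ap f c = ap f c' → c = c') fun d hd => co_om1 hd
  obtain ⟨W, -, hW⟩ := rec_tm (fun d f => stp i f d) _ (od_hs (om M))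
  refine ⟨i, W, fun d hd => (hi d hd).1, fun d hd => (hi d hd).2, fun d hd z => ?_⟩
  have h1 : ∀ k z, InK i (rs W d) d k z ↔ InK i W d k z := fun k z =>
    exists_congr fun c => and_congr_right fun hc => by rw [ap_rs hc]
  have h2 : ∀ a, kk i (rs W d) d a = kk i W d a := fun a => ext' fun j => by
    simp only [m_kk, h1]
  rw [hW d hd, m_stp]
  refine and_congr_right fun _ => or_congr_right (exists_congr fun a =>
    and_congr_right fun ha => ?_)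
  simp only [InU, h1, h2, ap_rs ha]

/-- The basic neighbourhoods. -/
noncomputable def NN (i W z n : M) : M :=
  (sep (ap W (p1 z)) fun u => ¬ InK i W (p1 z) n u ∧ p2 u ∩ n = p2 z ∩ n).choose

theorem m_NN {i W z n u : M} : u ∈ NN i W z n ↔
    u ∈ ap W (p1 z) ∧ ¬ InK i W (p1 z) n u ∧ p2 u ∩ n = p2 z ∩ n :=
  (sep (ap W (p1 z)) fun u => ¬ InK i W (p1 z) n u ∧ p2 u ∩ n = p2 z ∩ n).choose_spec u

instance (i V z n : α → M) [Tm i] [Tm V] [Tm z] [Tm n] :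
    Tm fun a => NN (i a) (V a) (z a) (n a) :=
  .ofMem _ (by simp only [m_NN]; infer_instance)

theorem NN_mono {i W z m n : M} (h : m ⊆ n) : NN i W z n ⊆ NN i W z m := fun u hu => by
  rw [m_NN] at hu ⊢
  exact ⟨hu.1, fun h' => hu.2.1 (h'.mono h), inter_mono h hu.2.2⟩

namespace Dt

variable {i W : M} (H : Dt i W)
include H

theorem sub {d z : M} (hd : d ∈ om1 M) (h : z ∈ ap W d) : z ∈ XX M := ((H.spec d hd z).1 h).1

theorem self {z : M} (h : z ∈ XX M) : z ∈ ap W (p1 z) := (H.spec _ (xx1 h) z).2 ⟨h, .inl rfl⟩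

theorem lev_le : ∀ d ∈ om1 M, ∀ z ∈ ap W d, p1 z ⊆ d :=
  om1_ind _ fun d hd ih z hz => by
    rcases ((H.spec d hd z).1 hz).2 with h | ⟨a, ha, h⟩
    · exact h ▸ sub_rfl
    · exact sub_trans (ih a ha z h.1) ((od_of hd).sub ha)

theorem not_mem {c z : M} (hz : p1 z ∈ om1 M) (h : c ∈ p1 z) : z ∉ ap W c := fun h' =>
  not_mem_self c (H.lev_le c (om1_tr hz h) z h' c h)

theorem lev_NN {z u n : M} (hu : u ∈ XX M) (e : p1 u = p1 z) (e' : p2 u ∩ n = p2 z ∩ n) :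
    u ∈ NN i W z n :=
  m_NN.2 ⟨e ▸ H.self hu, fun ⟨c, h1, _, h2⟩ => H.not_mem (xx1 hu) (e ▸ h1) h2, e'⟩

theorem self_NN {z : M} (hz : z ∈ XX M) (n : M) : z ∈ NN i W z n := H.lev_NN hz rfl rfl

theorem i_fin {d n : M} (hd : d ∈ om1 M) (hn : n ∈ om M) :
    Cv Fi fun c => c ∈ d ∧ ap (ap i d) c ∈ n :=
  cv_le (fi_om hn) (fun c => ap (ap i d) c) (fun _ h => h) (H.inj d hd)

theorem le_kk {d a n : M} (hn : n ∈ om M) (h1 : n ⊆ ap (ap i d) a)
    (h2 : ∀ q, q ⊆ sc n → ¬ InK i W d n (op a q)) : n ⊆ kk i W d a := fun j hj =>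
  have h3 := (od_om.mem hn).sc_sub hj
  m_kk.2 ⟨h1 j hj, fun q hq h => h2 q (sub_trans hq
    (sc_mono (sc_om (od_om.tr hj hn)) hn h3)) (h.mono h3)⟩

theorem kk_om {d a : M} (hd : d ∈ om1 M) (ha : a ∈ d) : kk i W d a ∈ om M := by
  have h1 := H.mem d hd a ha
  have h2 : ∀ j ∈ kk i W d a, j ∈ om M := fun j hj => od_om.tr (m_kk.1 hj).1 h1
  refine Od.sub_mem ⟨fun j hj => sub_trans (sub_sc j) (H.le_kk (sc_om (h2 j hj))
    ((od_om.mem h1).sc_sub (m_kk.1 hj).1) (m_kk.1 hj).2), fun j hj => (od_om.mem (h2 j hj)).1⟩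
    od_om (fun j hj => (m_kk.1 hj).1) h1

theorem kk_spec {d a q : M} (hd : d ∈ om1 M) (ha : a ∈ d) (hq : q ⊆ sc (kk i W d a)) :
    ¬ InK i W d (kk i W d a) (op a q) := by
  rcases om_cases _ (H.kk_om hd ha) with e | ⟨j, -, e⟩
  · rintro ⟨c, -, h, -⟩
    exact m_emp _ (e ▸ h)
  · have := (m_kk.1 (e ▸ mem_sc j : j ∈ kk i W d a)).2 q
    rw [← e] at this
    exact this hq

theorem k_fin_of {d n : M} (hd : d ∈ om1 M) (hn : n ∈ om M)
    (h : ∀ c ∈ d, ∀ n ∈ om M, ∀ q, q ⊆ n → Cv Fi fun b => op b q ∈ ap W c) :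
    Cv Fi fun a => a ∈ d ∧ kk i W d a ∈ n := by
  refine (idl_fi.or (H.i_fin hd hn) (idl_fi.bU (cv_mem (fi_pw _ (sc_om hn)))
    (fun q b => ∃ c, (c ∈ d ∧ ap (ap i d) c ∈ n) ∧ op b q ∈ ap W c) fun q hq =>
      idl_fi.bU (H.i_fin hd hn) (fun c b => op b q ∈ ap W c) fun c hc =>
        h c hc.1 _ (sc_om hn) q (m_pw.1 hq))).mono fun a ⟨h1, h2⟩ => ?_
  by_contra hc
  rw [not_or] at hc
  exact not_mem_self _ (H.le_kk hn ((om_tri (H.mem d hd a h1) n hn).resolve_left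
    fun h3 => hc.1 ⟨h1, h3⟩) (fun q hq ⟨c, c1, c2, c3⟩ => hc.2 ⟨q, m_pw.2 hq, c, ⟨c1, c2⟩, c3⟩) _ h2)

theorem fibre_fin : ∀ d ∈ om1 M, ∀ n ∈ om M, ∀ q, q ⊆ n → Cv Fi fun b => op b q ∈ ap W d :=
  om1_ind _ fun d hd ih n hn q hq => by
    refine (idl_fi.or (cv_mem (fi_one d)) (idl_fi.bU (H.k_fin_of hd hn ih)
      (fun a b => op b q ∈ ap W a) fun a ha => ih a ha.1 n hn q hq)).mono fun b hb => ?_
    rcases ((H.spec d hd _).1 hb).2 with h | ⟨a, ha, h⟩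
    · exact .inl (by simpa using h)
    · exact .inr ⟨a, ⟨ha, hq _ (by simpa using h.2.2.1)⟩, h.1⟩

theorem k_fin {d n : M} (hd : d ∈ om1 M) (hn : n ∈ om M) :
    Cv Fi fun a => a ∈ d ∧ kk i W d a ∈ n :=
  H.k_fin_of hd hn fun c hc => H.fibre_fin c (om1_tr hd hc)

theorem mem_iff {c d z : M} (hd : d ∈ om1 M) (hc : c ∈ d) (hz : z ∈ ap W c) : z ∈ ap W d ↔
    ∃ a, (a ∈ d ∧ kk i W d a ∈ sc (ap (ap i d) c)) ∧ InU i W d a z := by
  rw [H.spec d hd]
  refine ⟨fun ⟨h0, h⟩ => ?_, fun ⟨a, ha, h⟩ => ⟨H.sub (om1_tr hd hc) hz, .inr ⟨a, ha.1, h⟩⟩⟩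
  rcases h with h | ⟨a, ha, h⟩
  · exact absurd hz (H.not_mem (xx1 h0) (h ▸ hc))
  · exact ⟨a, ⟨ha, by_contra fun h' => h.2.1
      ⟨c, hc, mem_of_not (H.mem d hd c hc) (H.kk_om hd ha) h', hz⟩⟩, h⟩

theorem ev_agree {d j : M} (hd : d ∈ om1 M) (hj : j ∈ om M) : Evt (om M) fun n =>
    ∀ u ∈ ap W d, ¬ InK i W d n u → j ∈ p2 u → Agr i (p1 u) d j := by
  refine (evt_fin od_om emp_om (H.k_fin hd (sc_om hj)) (fun a n => ap (ap i d) a ∈ n)
    fun a ha => evt_mem (sc_om (H.mem d hd a ha.1))).mono fun n _ h u hu h1 h2 => ?_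
  rcases ((H.spec d hd u).1 hu).2 with e | ⟨a, ha, e⟩
  · exact fun c l _ => by rw [e]
  · exact e.2.2.2 j (mem_of_not hj (H.kk_om hd ha) fun h3 => h1 ⟨a, ha, h a ⟨ha, h3⟩, e.1⟩) h2

theorem clopen : ∀ d ∈ om1 M, ∀ z ∈ XX M, Evt (om M) fun n =>
    ∀ u ∈ NN i W z n, (u ∈ ap W d ↔ z ∈ ap W d) := by
  refine om1_ind _ fun d hd ih z hz => ?_
  have hc := xx1 hz
  rcases od_tri _ (od_of hc) d (od_of hd) with h | h | h
  · refine (evt_fin od_om emp_om (H.k_fin hd (sc_om (H.mem d hd _ h)))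
      (fun a n => ∀ u ∈ NN i W z n, (InU i W d a u ↔ InU i W d a z)) fun a ha => ?_).mono
        fun n _ h1 u hu => ?_
    · have hk := H.kk_om hd ha.1
      refine (((ih a ha.1 z hz).and od_om (evt_fin od_om emp_om (H.i_fin hd hk)
        (fun c n => ∀ u ∈ NN i W z n, (u ∈ ap W c ↔ z ∈ ap W c))
        fun c h2 => ih c h2.1 z hz)).and od_om ((evt_fin od_om emp_om (cv_mem (fi_om hk))
          (fun j n => ∀ u ∈ ap W (p1 z), ¬ InK i W (p1 z) n u → j ∈ p2 u →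
            Agr i (p1 u) (p1 z) j) fun j hj => H.ev_agree hc (od_om.tr hj hk)).and od_om
              (evt_mem (sc_om hk)))).mono fun n hn ⟨⟨h2, h3⟩, h4, h5⟩ u hu => ?_
      obtain ⟨u1, u2, u3⟩ := m_NN.1 hu
      refine and_congr (h2 u hu) (and_congr (not_congr (exists_congr fun c =>
        and_congr_right fun c1 => and_congr_right fun c2 => h3 c ⟨c1, c2⟩ u hu))
        (and_congr (inter_iff u3 h5) (forall₂_congr fun j hj => ?_)))
      rw [← inter_iff u3 ((od_om.mem hn).tr hj h5)]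
      exact imp_congr_right fun h6 => forall_congr' fun c => forall₂_congr fun l hl => by
        rw [h4 j hj u u1 u2 h6 c l hl]
    · rw [H.mem_iff hd h (m_NN.1 hu).1, H.mem_iff hd h (H.self hz)]
      exact exists_congr fun a => and_congr_right fun ha => h1 a ha u hu
  · exact evt_all emp_om fun n _ u hu => iff_of_true (h ▸ (m_NN.1 hu).1) (h ▸ H.self hz)
  · exact (evt_mem (sc_om (H.mem _ hc d h))).mono fun n _ h1 u hu =>
      iff_of_false (fun h2 => (m_NN.1 hu).2.1 ⟨d, h, h1, h2⟩) (H.not_mem hc h)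

/-- Almost all lower levels whose enumeration agrees with that of `d` come close. -/
theorem accum {z n : M} (hz : z ∈ XX M) (hn : n ∈ om M) : Cv Fi fun a => a ∈ p1 z ∧
    Agr i a (p1 z) n ∧ ¬ ∃ y, op a y ∈ NN i W z n := by
  have hd := xx1 hz
  refine (H.k_fin hd hn).mono fun a ⟨h1, h2, h3⟩ => ⟨h1, by_contra fun hc => h3 ?_⟩
  have hk := H.kk_om hd h1
  have h4 := (om_tri hk n hn).resolve_left hc
  generalize e : kk i W (p1 z) a = k at hk h4 hc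
  have h5 : p2 z ∩ n ∪ up k k ⊆ sc k := fun j hj => by
    simp only [m_union, m_inter, m_up, or_self, m_sc] at hj ⊢
    exact hj.imp_left fun h => h4 j h.2
  have h6 := H.kk_spec (q := p2 z ∩ n ∪ up k k) hd h1 (by rw [e]; exact h5)
  have h7 : op a (p2 z ∩ n ∪ up k k) ∈ XX M :=
    op_xx.2 ⟨om1_tr hd h1, sub_trans h5 (od_om.sub (sc_om hk))⟩
  refine ⟨p2 z ∩ n ∪ up k k, m_NN.2 ⟨(H.spec _ hd _).2 ⟨h7, .inr ⟨a, h1, by simpa using H.self h7,
    h6, by simp [e], fun j hj h8 c l hl => ?_⟩⟩, fun h => h6 (h.mono (e ▸ h4)), ext' fun j => ?_⟩⟩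
  · simp only [p2_op, m_union, m_inter, m_up, or_self] at h8
    rw [p1_op]
    exact h2 c l ((od_om.mem hn).tr hl
      (h8.resolve_right fun e' => not_mem_self k (by rwa [e', e] at hj)).2)
  · simp only [p2_op, m_union, m_inter, m_up, or_self]
    exact ⟨fun h => h.1.resolve_right fun e' => hc (e' ▸ h.2), fun h => ⟨.inl h, h.2⟩⟩

end Dt

end Pool.Agent.Lib.MP_60e7f9_lc.Prov
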