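import Mathlib
import Pool.Agent.Lib.MP_1f0905_gt.PvComb

/-!
The topology on `ω₁ × P(ω)` in an arbitrary model of ZFC: it is Hausdorff, locally compact,
locally metrizable and of weight at most `ℵ₁`.
-/

set_option autoImplicit false
set_option linter.unusedSectionVars false
set_option linter.unusedVariables false
set_option synthInstance.maxSize 100000

namespace Pool.Agent.Lib.MP_60e7f9_lc.Prov

open Pool.Agent.Lib.Common.Forcing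

variable {M : Type} [Mod M] {α : Type} [Env M α]

/-- The open sets. -/
noncomputable def TT (i W : M) : M :=
  (sep (pw (XX M)) fun O => ∀ z ∈ O, Evt (om M) fun n => NN i W z n ⊆ O).choose

theorem m_TT {i W O : M} : O ∈ TT i W ↔
    O ⊆ XX M ∧ ∀ z ∈ O, Evt (om M) fun n => NN i W z n ⊆ O :=
  ((sep (pw (XX M)) fun O => ∀ z ∈ O, Evt (om M) fun n => NN i W z n ⊆ O).choose_spec O).trans
    (by rw [m_pw])

/-- Meaning of `cpt`. -/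
def Cpt (T K : M) : Prop := ∀ C, C ⊆ T → (∀ x ∈ K, ∃ U ∈ C, x ∈ U) →
  ∃ D, D ⊆ C ∧ Fi D ∧ ∀ x ∈ K, ∃ U ∈ D, x ∈ U

theorem sU_open {i W S : M} (h : S ⊆ TT i W) : sU S ∈ TT i W := by
  refine m_TT.2 ⟨fun z hz => ?_, fun z hz => ?_⟩ <;> obtain ⟨U, h1, h2⟩ := m_sU.1 hz
  · exact (m_TT.1 (h U h1)).1 z h2
  · exact ((m_TT.1 (h U h1)).2 z h2).mono fun n _ e u hu => m_sU.2 ⟨U, h1, e u hu⟩

theorem inter_open {i W U V : M} (h : U ∈ TT i W) (h' : V ∈ TT i W) : U ∩ V ∈ TT i W :=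
  m_TT.2 ⟨fun z hz => (m_TT.1 h).1 z (m_inter.1 hz).1, fun z hz =>
    (((m_TT.1 h).2 z (m_inter.1 hz).1).and od_om ((m_TT.1 h').2 z (m_inter.1 hz).2)).mono
      fun n _ e u hu => m_inter.2 ⟨e.1 u hu, e.2 u hu⟩⟩

theorem Cpt.idl {i W K : M} (hK : Cpt (TT i W) K) {I : M → Prop} (hI : Idl I)
    [hI' : Df M fun z : Unit × M => I z.2] (h : ∀ z ∈ K, ∃ O ∈ TT i W, z ∈ O ∧ Cv I (· ∈ O)) :
    ∃ O ∈ TT i W, K ⊆ O ∧ Cv I (· ∈ O) := by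
  have i1 := @dfR1 M _ I hI'
  obtain ⟨C, hC⟩ := sep (TT i W) fun O => Cv I (· ∈ O)
  obtain ⟨D, d1, d2, d3⟩ := hK C (fun O hO => ((hC O).1 hO).1) fun z hz => by
    obtain ⟨O, h1, h2, h3⟩ := h z hz
    exact ⟨O, (hC O).2 ⟨h1, h3⟩, h2⟩
  exact ⟨sU D, sU_open fun O hO => ((hC O).1 (d1 O hO)).1, fun z hz => m_sU.2 (d3 z hz),
    (hI.bU (cv_mem d2) (fun O z => z ∈ O) fun O hO => ((hC O).1 (d1 O hO)).2).mono
      fun z hz => m_sU.1 hz⟩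

namespace Dt

variable {i W : M} (H : Dt i W)
include H

theorem NN_sub {z n : M} (hz : z ∈ XX M) : NN i W z n ⊆ XX M := fun u hu =>
  H.sub (xx1 hz) (m_NN.1 hu).1

theorem X_open : XX M ∈ TT i W :=
  m_TT.2 ⟨sub_rfl, fun z hz => evt_all emp_om fun _ _ => H.NN_sub hz⟩

theorem W_open {d : M} (hd : d ∈ om1 M) : ap W d ∈ TT i W :=
  m_TT.2 ⟨fun z => H.sub hd, fun z hz => (H.clopen d hd z (H.sub hd hz)).mono
    fun n _ h u hu => (h u hu).2 hz⟩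

theorem NN_open {z n : M} (hz : z ∈ XX M) (hn : n ∈ om M) : NN i W z n ∈ TT i W := by
  refine m_TT.2 ⟨H.NN_sub hz, fun u hu => ?_⟩
  have h1 := H.NN_sub hz u hu
  obtain ⟨u1, u2, u3⟩ := m_NN.1 hu
  exact (((H.clopen _ (xx1 hz) u h1).and od_om (evt_fin od_om emp_om (H.i_fin (xx1 hz) hn)
    (fun c m => ∀ v ∈ NN i W u m, (v ∈ ap W c ↔ u ∈ ap W c)) fun c hc =>
      H.clopen c (om1_tr (xx1 hz) hc.1) u h1)).and od_om (evt_sub hn)).mono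
        fun m _ ⟨⟨h2, h3⟩, h4⟩ v hv => m_NN.2 ⟨(h2 v hv).2 u1, fun ⟨c, c1, c2, c3⟩ =>
          u2 ⟨c, c1, c2, (h3 c ⟨c1, c2⟩ v hv).1 c3⟩, (inter_mono h4 (m_NN.1 hv).2.2).trans u3⟩

theorem haus : ∀ x ∈ XX M, ∀ y ∈ XX M, ¬ x = y →
    ∃ U ∈ TT i W, ∃ V ∈ TT i W, x ∈ U ∧ y ∈ V ∧ ∀ z ∈ U, z ∉ V := by
  have key : ∀ x ∈ XX M, ∀ y ∈ XX M, p1 x ∈ p1 y →
      ∃ n ∈ om M, ∀ z ∈ NN i W x n, z ∉ NN i W y n := fun x hx y hy h =>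
    ⟨_, sc_om (H.mem _ (xx1 hy) _ h), fun z h1 h2 =>
      (m_NN.1 h2).2.1 ⟨_, h, mem_sc _, (m_NN.1 h1).1⟩⟩
  intro x hx y hy h
  have : ∃ n ∈ om M, ∀ z ∈ NN i W x n, z ∉ NN i W y n := by
    rcases od_tri _ (od_of (xx1 hx)) _ (od_of (xx1 hy)) with e | e | e
    · exact key x hx y hy e
    · by_contra hc
      refine h (xx_ext hx hy e (ext' fun j => ?_))
      by_cases hj : j ∈ om M
      · by_contra h1
        exact hc ⟨_, sc_om hj, fun z h2 h3 => h1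
          (inter_iff ((m_NN.1 h2).2.2.symm.trans (m_NN.1 h3).2.2) (mem_sc j))⟩
      · exact iff_of_false (fun h1 => hj (xx2 hx j h1)) fun h1 => hj (xx2 hy j h1)
    · exact (key y hy x hx e).imp fun n hn => ⟨hn.1, fun z h1 h2 => hn.2 z h2 h1⟩
  obtain ⟨n, hn, h1⟩ := this
  exact ⟨_, H.NN_open hx hn, _, H.NN_open hy hn, H.self_NN hx n, H.self_NN hy n, h1⟩

theorem W_ind {I : M → Prop} (hI : Idl I) [hI' : Df M fun z : Unit × M => I z.2]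
    (h : ∀ z ∈ XX M, ∃ n ∈ om M, Cv I (· ∈ NN i W z n)) : ∀ d ∈ om1 M, Cv I (· ∈ ap W d) := by
  have i1 := @dfR1 M _ I hI'
  refine om1_ind _ fun d hd ih => ?_
  obtain ⟨m, hm, h1⟩ := (fan (fun s n => Evt (om M) fun m =>
      Cv I fun u => u ∈ ap W d ∧ ¬ InK i W d m u ∧ p2 u ∩ n = s) (fun x hx => by
    obtain ⟨n, hn, h1⟩ := h _ (op_xx.2 ⟨hd, hx⟩)
    refine ⟨n, hn, (evt_sub hn).mono fun m _ e => h1.mono fun u hu => m_NN.2 ?_⟩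
    rw [p1_op, p2_op]
    exact ⟨hu.1, fun h2 => hu.2.1 (h2.mono e), hu.2.2⟩) fun n hn s a b =>
      (a.and od_om b).mono fun m _ h1 => (hI.or h1.1 h1.2).mono fun u ⟨u1, u2, u3⟩ => by
        by_cases h2 : n ∈ p2 u
        · refine .inr ⟨u1, u2, ext' fun j => ?_⟩
          simp only [← u3, m_inter, m_union, m_sc, m_up, or_self]
          exact ⟨fun h => h.2.imp_left (⟨h.1, ·⟩),
            fun h => h.elim (fun h => ⟨h.1, .inl h.2⟩) fun e => ⟨e ▸ h2, .inr e⟩⟩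
        · refine .inl ⟨u1, u2, ext' fun j => ?_⟩
          simp only [← u3, m_inter, m_sc]
          exact and_congr_right fun h => ⟨fun h' => h'.resolve_right fun e => h2 (e ▸ h), .inl⟩).ex
  refine (hI.or h1 (hI.bU (H.i_fin hd hm) (fun c u => u ∈ ap W c) fun c hc => ih c hc.1)).mono
    fun u hu => ?_
  by_cases h2 : InK i W d m u
  · exact .inr (h2.imp fun c hc => ⟨⟨hc.1, hc.2.1⟩, hc.2.2⟩)
  · exact .inl ⟨hu, h2, s_emp.1 (by simp)⟩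

theorem W_cpt {d : M} (hd : d ∈ om1 M) : Cpt (TT i W) (ap W d) := fun C hC h => by
  obtain ⟨A, ⟨D, d1, d2, d3⟩, h2⟩ := H.W_ind
    (I := fun A => ∃ D, D ⊆ C ∧ Fi D ∧ ∀ x ∈ A, x ∈ ap W d → ∃ U ∈ D, x ∈ U)
    ⟨⟨∅, emp_sub _, fi_emp, by simp⟩, fun A B ⟨D, d1, d2, d3⟩ ⟨E, e1, e2, e3⟩ =>
      ⟨D ∪ E, fun z hz => (m_union.1 hz).elim (d1 z) (e1 z), d2.union e2, fun x hx h1 =>
        (m_union.1 hx).elim (fun h => (d3 x h h1).imp fun U hU => ⟨m_union.2 (.inl hU.1), hU.2⟩)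
          fun h => (e3 x h h1).imp fun U hU => ⟨m_union.2 (.inr hU.1), hU.2⟩⟩⟩ (fun z hz => by
    by_cases h1 : z ∈ ap W d
    · obtain ⟨U, u1, u2⟩ := h z h1
      obtain ⟨n, hn, h2⟩ := ((m_TT.1 (hC U u1)).2 z u2).ex
      exact ⟨n, hn, cv_mem ⟨up U U, fun V hV => by simpa [(by simpa using hV : V = U)] using u1,
        fi_one U, fun x hx _ => ⟨U, by simp, h2 x hx⟩⟩⟩
    · obtain ⟨n, hn, h2⟩ := (H.clopen d hd z hz).ex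
      exact ⟨n, hn, cv_mem ⟨∅, emp_sub _, fi_emp, fun x hx h3 => absurd ((h2 x hx).1 h3) h1⟩⟩)
    d hd
  exact ⟨D, d1, d2, fun x hx => d3 x (h2 x hx) hx⟩

theorem wt : ∃ B, B ⊆ TT i W ∧ Le B (om1 M) ∧ ∀ U ∈ TT i W, ∀ x ∈ U, ∃ V ∈ B, x ∈ V ∧ V ⊆ U := by
  obtain ⟨S, s1, s2⟩ := ex_fs (M := M)
  obtain ⟨B, hB⟩ := repl (pr (pr (om1 M) S) (om M)) fun p => NN i W (p1 p) (p2 p)
  have h0 : om M ⊆ om1 M := om_hs od_om sub_rfl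
  refine ⟨B, fun V hV => ?_, (le_surj (fun p => NN i W (p1 p) (p2 p)) fun y hy =>
    (hB y).1 hy).trans (pr_le (od_hs _) h0 (pr_le (od_hs _) h0 le_rfl'
      (s1.trans (le_of_sub h0))) (le_of_sub h0)), fun U hU x hx => ?_⟩
  · obtain ⟨_, hp, rfl⟩ := (hB V).1 hV
    obtain ⟨_, hq, n, hn, rfl⟩ := m_pr.1 hp
    obtain ⟨d, hd, s, hs, rfl⟩ := m_pr.1 hq
    obtain ⟨m, hm, h⟩ := (s2 s).1 hs
    rw [p1_op, p2_op]
    exact H.NN_open (op_xx.2 ⟨hd, sub_trans h (od_om.sub hm)⟩) hn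
  · obtain ⟨n, hn, h⟩ := ((m_TT.1 hU).2 x hx).ex
    have h1 := (m_TT.1 hU).1 x hx
    refine ⟨_, (hB _).2 ⟨op (op (p1 x) (p2 x ∩ n)) n, op_pr.2 ⟨op_pr.2 ⟨xx1 h1,
      (s2 _).2 ⟨n, hn, inter_sub⟩⟩, hn⟩, ext' fun u => ?_⟩, H.self_NN h1 n, h⟩
    simp only [m_NN, p1_op, p2_op, inter_inter sub_rfl]

theorem metr {d : M} (hd : d ∈ om1 M) : ∃ D : M,
    (∀ x ∈ ap W d, ∀ y ∈ ap W d, ∃ v, op (op x y) v ∈ D ∧ (∀ u, op (op x y) u ∈ D → u = v) ∧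
      (v ∈ om M ∨ v = om M) ∧ (v = om M ↔ x = y) ∧ op (op y x) v ∈ D) ∧
    (∀ x ∈ ap W d, ∀ y ∈ ap W d, ∀ z ∈ ap W d, ∀ a b c, op (op x y) a ∈ D →
      op (op y z) b ∈ D → op (op x z) c ∈ D → a ⊆ c ∨ b ⊆ c) ∧
    ∀ V, V ⊆ ap W d → ((∃ O ∈ TT i W, V = ap W d ∩ O) ↔ ∀ x ∈ V, ∃ n ∈ om M,
      ∀ y ∈ ap W d, ∀ v, op (op x y) v ∈ D → n ∈ v → y ∈ V) := by
  obtain ⟨D, d1, d2⟩ := ch (pr (ap W d) (ap W d)) (fun p v => ∀ n, n ∈ v ↔ n ∈ om M ∧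
    p2 (p1 p) ∩ sc n = p2 (p2 p) ∩ sc n ∧ ∀ c ∈ d, ap (ap i d) c ∈ sc n →
      (p1 p ∈ ap W c ↔ p2 p ∈ ap W c)) fun p _ => sep _ _
  have e1 : ∀ x ∈ ap W d, ∀ y ∈ ap W d, ∀ n, n ∈ ap D (op x y) ↔ n ∈ om M ∧
      p2 x ∩ sc n = p2 y ∩ sc n ∧ ∀ c ∈ d, ap (ap i d) c ∈ sc n →
        (x ∈ ap W c ↔ y ∈ ap W c) := fun x hx y hy n => by
    simpa only [p1_op, p2_op] using d2 _ (op_pr.2 ⟨hx, hy⟩) n
  have e2 : ∀ x ∈ ap W d, ∀ y ∈ ap W d, Od (ap D (op x y)) := fun x hx y hy =>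
    ⟨fun n hn j hj => by
      obtain ⟨a1, a2, a3⟩ := (e1 x hx y hy n).1 hn
      have h := sc_mono (od_om.tr hj a1) a1 ((od_om.mem a1).sub hj)
      exact (e1 x hx y hy j).2 ⟨od_om.tr hj a1, inter_mono h a2, fun c hc h' => a3 c hc (h _ h')⟩,
    fun n hn => (od_om.mem ((e1 x hx y hy n).1 hn).1).1⟩
  have e3 : ∀ x ∈ ap W d, ∀ y ∈ ap W d, (∀ c ∈ d, x ∈ ap W c ↔ y ∈ ap W c) → p1 x ⊆ p1 y :=
    fun x hx y hy h => by
      rcases (od_of (xx1 (H.sub hd hy))).of_sub (od_of hd) (H.lev_le d hd y hy) with e | e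
      · exact H.lev_le _ (om1_tr hd e) x ((h _ e).2 (H.self (H.sub hd hy)))
      · exact e ▸ H.lev_le d hd x hx
  refine ⟨D, fun x hx y hy => ⟨_, d1.op_iff.2 ⟨op_pr.2 ⟨hx, hy⟩, rfl⟩,
    fun u hu => (d1.op_iff.1 hu).2, (e2 x hx y hy).of_sub od_om fun n hn =>
      ((e1 x hx y hy n).1 hn).1, ⟨fun e => ?_, fun e => ext' fun n => ?_⟩,
    d1.op_iff.2 ⟨op_pr.2 ⟨hy, hx⟩, ext' fun n => ?_⟩⟩,
    fun x hx y hy z hz a b c h1 h2 h3 => ?_, fun V hV => ⟨?_, fun h => ⟨V, m_TT.2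
      ⟨fun z hz => H.sub hd (hV z hz), fun x hx => ?_⟩, ext' fun z => ?_⟩⟩⟩
  · have h1 := fun n (hn : n ∈ om M) => ((e1 x hx y hy n).1 (e ▸ hn)).2
    have h2 : ∀ c ∈ d, x ∈ ap W c ↔ y ∈ ap W c := fun c hc =>
      (h1 _ (H.mem d hd c hc)).2 c hc (mem_sc _)
    refine xx_ext (H.sub hd hx) (H.sub hd hy)
      (ext (e3 x hx y hy h2) (e3 y hy x hx fun c hc => (h2 c hc).symm)) (ext' fun j => ?_)
    by_cases hj : j ∈ om M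
    · exact inter_iff (h1 j hj).1 (mem_sc j)
    · exact iff_of_false (fun h => hj (xx2 (H.sub hd hx) j h)) fun h => hj (xx2 (H.sub hd hy) j h)
  · rw [e1 x hx y hy, e]
    simp
  · rw [e1 x hx y hy, e1 y hy x hx]
    exact and_congr_right fun _ => and_congr eq_comm
      (forall₃_congr fun _ _ _ => iff_comm)
  · rw [(d1.op_iff.1 h1).2, (d1.op_iff.1 h2).2, (d1.op_iff.1 h3).2]
    have h4 : ∀ n ∈ ap D (op x y), n ∈ ap D (op y z) → n ∈ ap D (op x z) := fun n a b => by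
      obtain ⟨a1, a2, a3⟩ := (e1 x hx y hy n).1 a
      obtain ⟨-, b2, b3⟩ := (e1 y hy z hz n).1 b
      exact (e1 x hx z hz n).2 ⟨a1, a2.trans b2, fun c hc h => (a3 c hc h).trans (b3 c hc h)⟩
    exact ((e2 x hx y hy).mem_or_sub (e2 y hy z hz)).imp
      (fun h n hn => h4 n hn ((e2 y hy z hz).tr hn h)) fun h n hn => h4 n (h n hn) hn
  · rintro ⟨O, hO, rfl⟩ x hx
    obtain ⟨x1, x2⟩ := m_inter.1 hx
    have x3 := H.sub hd x1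
    have x4 := H.lev_le d hd x x1
    obtain ⟨n, hn, h1⟩ := ((m_TT.1 hO).2 x x2).ex
    have h2 : Evt (om M) fun m => p1 x ∈ d → ap (ap i d) (p1 x) ∈ m := by
      by_cases h : p1 x ∈ d
      · exact (evt_mem (sc_om (H.mem d hd _ h))).mono fun _ _ e _ => e
      · exact evt_all emp_om fun _ _ e => absurd e h
    obtain ⟨m, hm, ⟨h3, h4⟩, h5⟩ := (((evt_fin od_om emp_om (H.i_fin (xx1 x3) hn)
      (fun c m => ap (ap i d) c ∈ m) fun c hc => evt_mem (sc_om (H.mem d hd c (x4 c hc.1)))).and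
        od_om (evt_sub hn)).and od_om h2).ex
    refine ⟨m, hm, fun y hy v h6 h7 => m_inter.2 ⟨hy, h1 y (m_NN.2 ?_)⟩⟩
    obtain ⟨-, a2, a3⟩ := (e1 x x1 y hy m).1 ((d1.op_iff.1 h6).2 ▸ h7)
    refine ⟨?_, fun ⟨c, c1, c2, c3⟩ => H.not_mem (xx1 x3) c1 ((a3 c (x4 c c1)
      (sub_sc m _ (h3 c ⟨c1, c2⟩))).2 c3), (inter_mono (sub_trans h4 (sub_sc m)) a2).symm⟩
    rcases (od_of (xx1 x3)).of_sub (od_of hd) x4 with e | e
    · exact (a3 _ e (sub_sc m _ (h5 e))).1 (H.self x3)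
    · exact e ▸ hy
  · obtain ⟨n, hn, h1⟩ := h x hx
    have x3 := H.sub hd (hV x hx)
    refine (((H.clopen d hd x x3).and od_om (evt_fin od_om emp_om (H.i_fin hd (sc_om hn))
      (fun c m => ∀ v ∈ NN i W x m, (v ∈ ap W c ↔ x ∈ ap W c)) fun c hc =>
        H.clopen c (om1_tr hd hc.1) x x3)).and od_om (evt_sub (sc_om hn))).mono
          fun m _ ⟨⟨h2, h3⟩, h4⟩ y hy => ?_
    have h5 := (h2 y hy).2 (hV x hx)
    exact h1 y h5 _ (d1.op_iff.2 ⟨op_pr.2 ⟨hV x hx, h5⟩, rfl⟩) ((e1 x (hV x hx) y h5 n).2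
      ⟨hn, (inter_mono h4 (m_NN.1 hy).2.2).symm, fun c c1 c2 => (h3 c ⟨c1, c2⟩ y hy).symm⟩)
  · exact ⟨fun hz => m_inter.2 ⟨hV z hz, hz⟩, fun hz => (m_inter.1 hz).2⟩

end Dt

end Pool.Agent.Lib.MP_60e7f9_lc.Prov
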