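import Mathlib
import Pool.Agent.Lib.MP_1f0905_gt.PvTop
import Pool.Agent.Lib.MP_1f0905_gt.ProvDefs

/-!
The space contains no perfect preimage of `ω₁` and is not quasi developable. The sentence
`noDich` holds in every model of ZFC, hence it is provable from ZFC.
-/

set_option autoImplicit false
set_option linter.unusedSectionVars false
set_option linter.unusedVariables false
set_option linter.unusedSimpArgs false
set_option synthInstance.maxSize 100000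

namespace Pool.Agent.Lib.MP_60e7f9_lc.Prov

open Pool.Agent.Lib.Common.Forcing

variable {M : Type} [Mod M] {α : Type} [Env M α]

/-- Meaning of `oop`. -/
def Oop (V : M) : Prop := V ⊆ om1 M ∧ ∀ a ∈ V, a = ∅ ∨ ∃ b ∈ a, ∀ c ∈ a, b ∈ c → c ∈ V

namespace Dt

variable {i W : M} (H : Dt i W)
include H

theorem not_perf {Z f : M} (hZ : Z ⊆ XX M) (f1 : Fn f Z)
    (f2 : ∀ a : M, a ∈ om1 M ↔ ∃ z, op z a ∈ f)
    (f3 : ∀ V : M, Oop V → ∃ O ∈ TT i W, ∀ z a, op z a ∈ f → (z ∈ O ↔ a ∈ V))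
    (f4 : ∀ O ∈ TT i W, ∃ V : M, Oop V ∧ ∀ a ∈ om1 M, a ∉ V ↔ ∃ z, op z a ∈ f ∧ z ∉ O)
    (f5 : ∀ a ∈ om1 M, ∃ K, (∀ z, z ∈ K ↔ op z a ∈ f) ∧ Cpt (TT i W) K) : False := by
  have key : ∀ (r : M → M → Prop) [hr : Df M fun z : (Unit × M) × M => r z.1.2 z.2],
      (∀ z ∈ XX M, ∀ a, r z a → a ∈ om1 M) →
      (∀ z ∈ XX M, ∃ n ∈ om M, Cv Fi fun a => ∃ u ∈ NN i W z n, r u a) →
      Evt (om1 M) fun n => ∀ a, (∃ z ∈ Z, r z a) → a ∈ n := by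
    intro r hr h0 h
    have i1 := @dfR2 M _ r hr
    have hI : Idl fun A : M => Cv Fi fun a => ∃ u ∈ A, r u a :=
      ⟨⟨∅, fi_emp, by simp⟩, fun A B a b => (idl_fi.or a b).mono fun x ⟨u, h1, h2⟩ =>
        (m_union.1 h1).imp (⟨u, ·, h2⟩) (⟨u, ·, h2⟩)⟩
    have h1 : ∀ a ∈ om1 M, Cv (fun A : M => Cv Fi fun a => ∃ u ∈ A, r u a)
        fun z => ∃ b, op z b ∈ f ∧ b ⊆ a := by
      refine om1_ind _ fun a ha ih => ?_
      obtain ⟨K, k1, k2⟩ := f5 a ha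
      obtain ⟨O, o1, o2, o3⟩ := k2.idl hI fun z hz => by
        have h2 := hZ z (f1.op_iff.1 ((k1 z).1 hz)).1
        obtain ⟨n, hn, h3⟩ := h z h2
        exact ⟨_, H.NN_open h2 hn, H.self_NN h2 n, cv_mem h3⟩
      obtain ⟨V, v1, v2⟩ := f4 O o1
      have h2 : ∀ z b, op z b ∈ f → b ∈ V → z ∈ O := fun z b h3 h4 =>
        by_contra fun h5 => (v2 b (v1.1 b h4)).2 ⟨z, h3, h5⟩ h4
      have h3 : a ∈ V := by_contra fun h3 => by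
        obtain ⟨z, z1, z2⟩ := (v2 a ha).1 h3
        exact z2 (o2 z ((k1 z).2 z1))
      rcases v1.2 a h3 with rfl | ⟨c, c1, c2⟩
      · exact o3.mono fun z ⟨b, b1, b2⟩ => h2 z b b1 (ext b2 (emp_sub b) ▸ h3)
      · refine (hI.or o3 (ih c c1)).mono fun z ⟨b, b1, b2⟩ => ?_
        have hb := od_of ((f2 b).2 ⟨z, b1⟩)
        exact (((od_of ha).mem c1).mem_or_sub hb).imp (fun e => h2 z b b1
          ((hb.of_sub (od_of ha) b2).elim (c2 b · e) (· ▸ h3))) (⟨b, b1, ·⟩)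
    by_contra hc
    obtain ⟨n, hn, h2⟩ := (evt_of_fin (fun a => ∃ z ∈ Z, r z a)
      (fun a n => ∃ z b, op z b ∈ f ∧ b ⊆ n ∧ r z a) (fun a ⟨z, z1, z2⟩ => by
        have h2 := f1.op_iff.2 ⟨z1, rfl⟩
        exact ⟨h0 z (hZ z z1) a z2, (evt_sub ((f2 _).2 ⟨z, h2⟩)).mono
          fun n _ e => ⟨z, _, h2, e, z2⟩⟩) hc).ex
    obtain ⟨A, a1, a2⟩ := h1 n hn
    exact h2 (a1.mono fun a ⟨_, z, b, b1, b2, b3⟩ => ⟨z, a2 z ⟨b, b1, b2⟩, b3⟩)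
  obtain ⟨S, s1, s2⟩ := ex_fs (M := M)
  obtain ⟨l, hl, l1, l2⟩ := ((evt_co s1 (fun q n => ∀ a, (∃ z ∈ Z, z = op a q) → a ∈ n)
    fun q hq => key (fun z a => z = op a q) (fun z hz a e => (op_xx.1 (e ▸ hz)).1) fun z hz => by
      obtain ⟨n, hn, h⟩ := (s2 q).1 hq
      exact ⟨∅, emp_om, (H.fibre_fin _ (xx1 hz) n hn q h).mono
        fun a ⟨u, h1, h2⟩ => h2 ▸ (m_NN.1 h1).1⟩).and (od_hs _)
    (evt_co le_rfl' (fun j n => ∀ a,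
      (∃ z ∈ Z, j ∈ p2 z ∧ a ∈ p1 z ∧ ap (ap i (p1 z)) a ∈ j) → a ∈ n) fun j hj =>
      key (fun z a => j ∈ p2 z ∧ a ∈ p1 z ∧ ap (ap i (p1 z)) a ∈ j)
        (fun z hz a e => om1_tr (xx1 hz) e.2.1) fun z hz => by
      obtain ⟨n, hn, h⟩ := (H.ev_agree (xx1 hz) hj).ex
      refine ⟨n, hn, (H.i_fin (xx1 hz) hj).mono fun a ⟨u, h1, h2, h3, h4⟩ => ?_⟩
      have := (h u (m_NN.1 h1).1 (m_NN.1 h1).2.1 h2 a _ h4).1 ⟨h3, rfl⟩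
      exact ⟨this.1, this.2 ▸ h4⟩)).ex
  have h1 : ∀ z ∈ Z, p1 z ∈ sc l := fun z hz => by
    have h0 := hZ z hz
    refine (od_of (xx1 h0)).sub_mem (od_of hl).sc ?_ (mem_sc l)
    by_cases h : p2 z ∈ S
    · exact (od_of hl).sub (l1 _ h _ ⟨z, hz, (xx_op h0).symm⟩)
    · intro a ha
      have h2 := H.mem _ (xx1 h0) a ha
      by_contra h3
      exact h ((s2 _).2 ⟨_, sc_om h2, fun j hj => by_contra fun h4 => h3
        (l2 j (xx2 h0 j hj) a ⟨z, hz, hj, ha, mem_of_not h2 (xx2 h0 j hj) h4⟩)⟩)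
  obtain ⟨e, he, h2⟩ := (evt_co (co_om1 (sc_om1 hl)) (fun a e => ∀ n ∈ om M, ∀ s ∈ S,
      (∃ z ∈ Z, p1 z = a ∧ p2 z ∩ n = s) → ∃ z ∈ Z, p1 z = a ∧ p2 z ∩ n = s ∧ ap f z ∈ e)
    fun a _ => evt_co le_rfl' (fun n e => ∀ s ∈ S,
      (∃ z ∈ Z, p1 z = a ∧ p2 z ∩ n = s) → ∃ z ∈ Z, p1 z = a ∧ p2 z ∩ n = s ∧ ap f z ∈ e)
    fun n _ => evt_co s1 (fun s e =>
      (∃ z ∈ Z, p1 z = a ∧ p2 z ∩ n = s) → ∃ z ∈ Z, p1 z = a ∧ p2 z ∩ n = s ∧ ap f z ∈ e)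
    fun s _ => by
      by_cases h : ∃ z ∈ Z, p1 z = a ∧ p2 z ∩ n = s
      · obtain ⟨z, z1, z2, z3⟩ := h
        exact (evt_mem (sc_om1 ((f2 _).2 ⟨z, f1.op_iff.2 ⟨z1, rfl⟩⟩))).mono
          fun e _ h _ => ⟨z, z1, z2, z3, h⟩
      · exact evt_all emp_om1 fun _ _ h' => absurd h' h).ex
  obtain ⟨O, o1, o2⟩ := f3 (om1 M \ sc e) ⟨fun a ha => (m_diff.1 ha).1, fun a ha => .inr
    ⟨e, ((od_of (m_diff.1 ha).1).mem_or_sub (od_of he).sc).resolve_left (m_diff.1 ha).2 e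
      (mem_sc e), fun c c1 c2 => m_diff.2 ⟨om1_tr (m_diff.1 ha).1 c1, fun h =>
        (m_sc.1 h).elim (mem_asymm c2) fun e' => not_mem_self c (e' ▸ c2)⟩⟩⟩
  obtain ⟨z, hz⟩ := (f2 _).1 (sc_om1 he)
  have z1 := (f1.op_iff.1 hz).1
  obtain ⟨n, hn, h3⟩ := ((m_TT.1 o1).2 z ((o2 z _ hz).2
    (m_diff.2 ⟨sc_om1 he, not_mem_self _⟩))).ex
  obtain ⟨u, u1, u2, u3, u4⟩ := h2 _ (h1 z z1) n hn _ ((s2 _).2 ⟨n, hn, inter_sub⟩)
    ⟨z, z1, rfl, rfl⟩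
  exact (m_diff.1 ((o2 u _ (f1.op_iff.2 ⟨u1, rfl⟩)).1 (h3 u (H.lev_NN (hZ u u1) u2 u3)))).2
    (sub_sc e _ u4)

/-- A level which is approximated by infinitely many lower levels of its colour. -/
theorem closure {A : M} (hA : Le A (om M)) (r : M → M → Prop)
    [hr : Df M fun z : (Unit × M) × M => r z.1.2 z.2] (h : ∀ d ∈ om1 M, ∃ c ∈ A, r d c) :
    ∃ d ∈ om1 M, ∃ c ∈ A, r d c ∧ ∀ j ∈ om M, ¬ Cv Fi fun a => a ∈ d ∧ r a c ∧ Agr i a d j := by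
  have i1 := @dfR2 M _ r hr
  by_contra hc
  let P : M → M → M → M → Prop := fun c j t d => d ∈ om1 M ∧ r d c ∧
    (Cv Fi fun a => a ∈ d ∧ r a c ∧ Agr i a d j) ∧
      ∀ b l, op b l ∈ t ↔ b ∈ d ∧ ap (ap i d) b = l ∧ l ∈ j
  obtain ⟨d, hd, d0, d1⟩ := club (fun x e => ∀ c ∈ A, ∀ j ∈ om M, ∀ t, t ⊆ pr x j → Fi t →
      ∀ d, P c j t d → d ∈ e) (hr := by simp only [P]; infer_instance) fun x hx =>
    evt_co hA (fun c e => ∀ j ∈ om M, ∀ t, t ⊆ pr x j → Fi t → ∀ d, P c j t d → d ∈ e)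
      (hr := by simp only [P]; infer_instance) fun c _ =>
    evt_co le_rfl' (fun j e => ∀ t, t ⊆ pr x j → Fi t → ∀ d, P c j t d → d ∈ e)
      (hr := by simp only [P]; infer_instance) fun j hj =>
    evt_cofi (pr_le od_om sub_rfl (co_om1 hx) (le_of_sub (od_om.sub hj)))
      (fun t e => ∀ d, P c j t d → d ∈ e) (hr := by simp only [P]; infer_instance) fun t _ _ => by
      by_contra h1
      obtain ⟨m, hm, h2⟩ := evt_of_fin (P c j t) (hp := by simp only [P]; infer_instance)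
        (fun a n => a ∈ n) (fun a ha => ⟨ha.1, evt_mem (sc_om1 ha.1)⟩) h1
      refine h1 ⟨m, hm, fun n hn e a ha => by_contra fun h3 => h2 a ha.1 (sub_trans e
        (((od_of ha.1).mem_or_sub (od_of hn)).resolve_left h3)) (ha.2.2.1.mono
          fun b ⟨b1, b2⟩ => ⟨b2, b1.2.1, fun g l hl => ?_⟩)⟩
      have := (b1.2.2.2 g l).symm.trans (ha.2.2.2 g l)
      simpa only [hl, and_true] using this
  obtain ⟨c, c1, c2⟩ := h d hd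
  obtain ⟨j, hj, h1⟩ : ∃ j ∈ om M, Cv Fi fun a => a ∈ d ∧ r a c ∧ Agr i a d j := by
    by_contra h1
    exact hc ⟨d, hd, c, c1, c2, fun j hj h2 => h1 ⟨j, hj, h2⟩⟩
  obtain ⟨x, hx, h2⟩ := (evt_fin (od_of hd) d0 (H.i_fin hd hj) (fun b x => b ∈ x)
    fun b hb => evt_mem (d1 b hb.1).1).ex
  obtain ⟨t, ht⟩ := sep (pr x j) fun p => p1 p ∈ d ∧ ap (ap i d) (p1 p) = p2 p
  refine not_mem_self d ((d1 x hx).2 c c1 j hj t (fun p hp => ((ht p).1 hp).1)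
    ((fi_om hj).le (le_tm (fun p => p2 p) (fun p hp => ?_) fun p hp q hq e => ?_)) d
      ⟨hd, c2, h1, fun b l => ?_⟩)
  · obtain ⟨b, -, l, hl, rfl⟩ := m_pr.1 ((ht p).1 hp).1
    rwa [p2_op]
  · obtain ⟨a1, a2, a3⟩ := (ht p).1 hp
    obtain ⟨b1, b2, b3⟩ := (ht q).1 hq
    have := H.inj d hd _ a2 _ b2 (a3.trans (e.trans b3.symm))
    obtain ⟨b, -, l, -, rfl⟩ := m_pr.1 a1
    obtain ⟨b', -, l', -, rfl⟩ := m_pr.1 b1
    simpa using ⟨by simpa using this, by simpa using e⟩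
  · simp only [ht, op_pr, p1_op, p2_op]
    exact ⟨fun h => ⟨h.2.1, h.2.2, h.1.2⟩,
      fun h => ⟨⟨h2 b ⟨h.1, h.2.1 ▸ h.2.2⟩, h.2.2⟩, h.1, h.2.1⟩⟩

theorem not_qdev {G : M} (g1 : Fn G (om M)) (g2 : ∀ n K, op n K ∈ G → K ⊆ TT i W)
    (g3 : ∀ U ∈ TT i W, ∀ x ∈ U, ∃ n K s, op n K ∈ G ∧
      (∀ z, z ∈ s ↔ ∃ V ∈ K, x ∈ V ∧ z ∈ V) ∧ x ∈ s ∧ s ⊆ U) : False := by
  obtain ⟨S, s1, s2⟩ := ex_fs (M := M)
  let L : M → M → M → Prop := fun a n x => x ⊆ om M ∧ (∃ V ∈ ap G n, op a x ∈ V) ∧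
    ∀ V ∈ ap G n, op a x ∈ V → V ⊆ ap W a
  obtain ⟨d, hd, _, c1, c2, c3⟩ := H.closure
    (pr_le od_om sub_rfl le_rfl' (pr_le od_om sub_rfl le_rfl' s1))
    (fun a c => ∀ n m s, c = op n (op m s) → s ⊆ m ∧ ∀ l ∈ om M, m ⊆ l → ∀ y, y ∩ m = s →
      ∃ x, L a n x ∧ x ∩ l = y ∩ l) (hr := by simp only [L]; infer_instance) fun a ha => by
    obtain ⟨n, hn, m, hm, s, h1, h2⟩ := baire (L a) (hL := by simp only [L]; infer_instance)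
      fun x hx => by
        have h0 := op_xx.2 ⟨ha, hx⟩
        obtain ⟨n, K, s, a1, a2, a3, a4⟩ := g3 _ (H.W_open ha) _ (by simpa using H.self h0)
        obtain ⟨a5, rfl⟩ := g1.op_iff.1 a1
        obtain ⟨V, v1, v2, -⟩ := (a2 _).1 a3
        exact ⟨n, a5, hx, ⟨V, v1, v2⟩, fun V v1 v2 z hz => a4 z ((a2 z).2 ⟨V, v1, v2, hz⟩)⟩
    refine ⟨_, op_pr.2 ⟨hn, op_pr.2 ⟨hm, (s2 s).2 ⟨m, hm, h1⟩⟩⟩, fun n' m' s' e => ?_⟩
    simp only [op_eq] at e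
    obtain ⟨rfl, rfl, rfl⟩ := e
    exact ⟨h1, h2⟩
  obtain ⟨n, hn, _, c4, rfl⟩ := m_pr.1 c1
  obtain ⟨m, hm, s, -, rfl⟩ := m_pr.1 c4
  obtain ⟨c5, c6⟩ := c2 n m s rfl
  obtain ⟨x, ⟨x1, ⟨O, o1, o2⟩, -⟩, x2⟩ := c6 m hm sub_rfl s (inter_self c5)
  have o3 := m_TT.1 (g2 n _ (g1.op_iff.2 ⟨hn, rfl⟩) O o1)
  have x3 := op_xx.2 ⟨hd, x1⟩
  obtain ⟨k, hk, k1, k2⟩ := ((o3.2 _ o2).and od_om (evt_sub hm)).ex
  refine c3 k hk ((H.accum x3 hk).mono fun a ⟨a1, a2, a3⟩ => ?_)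
  rw [p1_op]
  refine ⟨a1, a3, fun ⟨y, hy⟩ => ?_⟩
  obtain ⟨l, hl, l1, l2⟩ := ((o3.2 _ (k1 _ hy)).and od_om (evt_sub hm)).ex
  obtain ⟨u, ⟨u1, -, u2⟩, u3⟩ := (a2 n m s rfl).2 l hl l2 y (by
    have := inter_mono k2 (m_NN.1 hy).2.2
    rw [p2_op, p2_op] at this
    rw [this, x2, inter_self c5])
  exact H.not_mem (xx1 x3) (by rwa [p1_op]) (u2 O o1 (l1 _ (H.lev_NN
    (op_xx.2 ⟨om1_tr hd a1, u1⟩) (by simp) (by simpa using u3))) _ o2)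

end Dt

theorem ev_noDich (v : ℕ → M) : Ev Mod.E (noDich 0) v := by
  simp only [noDich, qdev, st, perf, oop, wt, lmetr, metr, dst, lcpt, cpt, cov, haus, top, fn, le,
    ord, nat, ind, emp, suc, leq, app, opr, upr, res, sub, allIn, exIn, ev_all, ev_ex, ev_imp,
    ev_neg, ev_and, ev_mem, ev_iff, ev_or, ev_eq, Nat.reduceAdd, Nat.reduceSub, cons_zero,
    cons_succ, E_def, s_emp, s_suc, s_op, s_up, s_res, exists_eq_right, exists_eq_left, s_om,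
    s_sub, s_le, s_od, s_fn]
  obtain ⟨i, W, H⟩ := ex_dt (M := M)
  exact ⟨om M, om1 M, fun _ => Iff.rfl, fun _ => m_hs, XX M, TT i W,
    ⟨fun U hU => (m_TT.1 hU).1, H.X_open, fun U hU V hV => inter_open hU hV,
      fun S hS => ⟨_, sU_open hS, fun _ => m_sU⟩⟩, H.haus,
    fun x hx => ⟨_, H.W_open (xx1 hx), _, H.self hx, sub_rfl, fun z => H.sub (xx1 hx),
      H.W_cpt (xx1 hx)⟩,
    fun x hx => ⟨_, H.W_open (xx1 hx), H.self hx, H.metr (xx1 hx)⟩, H.wt,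
    fun ⟨Z, f, h0, h1, h2, h3, h4, h5⟩ => H.not_perf h0 h1 h2 h3 h4 h5,
    fun ⟨G, h1, h2, h3⟩ => H.not_qdev h1 h2 h3⟩

theorem prf_noDich : Prf [] (noDich 0) :=
  complete fun M E h v => @ev_noDich M ⟨E, v, h⟩ v

end Pool.Agent.Lib.MP_60e7f9_lc.Prov
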