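import Pool.Agent.Lib.MP_1f0905_gt.Defs
import Pool.Agent.Lib.MP_1f0905_gt.Comb

/-!
The topology on `Ω × 2 ^ ℕ` generated by the second projection and the clopen sets `W δ`.
-/

open Set Filter Topology TopologicalSpace

namespace Pool.Agent.Lib.MP_1f0905_gt

namespace Dat

variable {Ω : Type} [LinearOrder Ω] [WellFoundedLT Ω] (D : Dat Ω)

open Classical in
/-- Coordinates of a point. -/
noncomputable def emb (z : Sp D) : (ℕ → Bool) × (Ω → Bool) :=
  (z.pt, fun γ => decide (z ∈ D.W γ))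

noncomputable instance : TopologicalSpace (Sp D) := induced D.emb inferInstance

theorem continuous_emb : Continuous D.emb := continuous_induced_dom

theorem continuous_pt : Continuous (Sp.pt : Sp D → ℕ → Bool) :=
  continuous_fst.comp D.continuous_emb

theorem isClopen_W (γ : Ω) : IsClopen (D.W γ) := by
  have h : Continuous fun z : Sp D => (D.emb z).2 γ :=
    (continuous_apply γ).comp (continuous_snd.comp D.continuous_emb)
  have h1 := (isClopen_discrete ({true} : Set Bool)).preimage h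
  have h2 : (fun z : Sp D => (D.emb z).2 γ) ⁻¹' {true} = D.W γ := by
    ext z
    simp [emb]
  rwa [h2] at h1

theorem eq_of_mem_iff {z w : Sp D} (h1 : z.pt = w.pt) (h2 : z ∈ D.W w.lev) (h3 : w ∈ D.W z.lev) :
    z = w :=
  Sp.ext (le_antisymm (D.lev_le h2) (D.lev_le h3)) h1

theorem emb_injective : Function.Injective D.emb := by
  intro z w h
  have h1 : z.pt = w.pt := congrArg Prod.fst h
  have h2 : ∀ γ, z ∈ D.W γ ↔ w ∈ D.W γ := fun γ => by
    simpa [emb] using congrFun (congrArg Prod.snd h) γ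
  exact D.eq_of_mem_iff h1 ((h2 _).2 (D.self_mem_W _ _)) ((h2 _).1 (D.self_mem_W _ _))

instance : T2Space (Sp D) := (IsEmbedding.mk ⟨rfl⟩ D.emb_injective).t2Space

theorem tendsto_iff {β : Type} {l : Filter β} {g : β → Sp D} {z : Sp D} :
    Tendsto g l (𝓝 z) ↔ Tendsto (fun b => (g b).pt) l (𝓝 z.pt) ∧
      ∀ γ, ∀ᶠ b in l, (g b ∈ D.W γ ↔ z ∈ D.W γ) := by
  rw [nhds_induced, tendsto_comap_iff, Prod.tendsto_iff]
  refine and_congr Iff.rfl (tendsto_pi_nhds.trans (forall_congr' fun γ => ?_))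
  simp [emb, nhds_discrete, tendsto_pure]

theorem le_nhds {δ : Ω} {x : ℕ → Bool} {l : Filter (Sp D)} (h1 : Tendsto Sp.pt l (𝓝 x))
    (h2 : l ≤ D.Φ δ) : l ≤ 𝓝 (⟨δ, x⟩ : Sp D) := by
  refine (D.tendsto_iff (g := id)).2 ⟨h1, fun γ => ?_⟩
  have h3 : ∀ᶠ y in 𝓝 x, ((⟨δ, y⟩ : Sp D) ∈ D.W γ ↔ (⟨δ, x⟩ : Sp D) ∈ D.W γ) := by
    by_cases h : (⟨δ, x⟩ : Sp D) ∈ D.W γ
    · filter_upwards [(D.isClopen_section γ δ).isOpen.mem_nhds h] with y hy
        using iff_of_true hy h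
    · filter_upwards [(D.isClopen_section γ δ).compl.isOpen.mem_nhds h] with y hy
        using iff_of_false hy h
  filter_upwards [h2 (D.ev_iff γ δ), h1.eventually h3] with z hz hz' using hz.trans hz'

theorem nhds_le_Φ (z : Sp D) : 𝓝 z ≤ D.Φ z.lev := by
  rintro S ⟨F, hF, hFδ, hFS⟩
  filter_upwards [(D.isClopen_W z.lev).isOpen.mem_nhds (D.self_mem_W _ _),
    (eventually_all_finite hF).2 fun γ hγ => (D.isClopen_W γ).compl.isOpen.mem_nhds
      (show z ∉ D.W γ from fun h => absurd (D.lev_le h) (not_le.2 (hFδ hγ)))] with w h1 h2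
  exact hFS w h1 h2

theorem continuous_mk (α : Ω) : Continuous fun x : ℕ → Bool => (⟨α, x⟩ : Sp D) := by
  refine continuous_iff_continuousAt.2 fun x => D.tendsto_iff.2 ⟨tendsto_id, fun γ => ?_⟩
  by_cases h : (⟨α, x⟩ : Sp D) ∈ D.W γ
  · filter_upwards [(D.isClopen_section γ α).isOpen.mem_nhds h] with y hy using iff_of_true hy h
  · filter_upwards [(D.isClopen_section γ α).compl.isOpen.mem_nhds h] with y hy
      using iff_of_false hy h

theorem isCompact_W (δ : Ω) : IsCompact (D.W δ) := by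
  induction δ using WellFoundedLT.induction with
  | ind δ ih =>
    rw [isCompact_iff_ultrafilter_le_nhds']
    intro 𝒰 h𝒰
    by_cases h : ∃ γ, γ < δ ∧ D.W γ ∈ 𝒰
    · obtain ⟨γ, hγ, h⟩ := h
      obtain ⟨z, -, hz⟩ := isCompact_iff_ultrafilter_le_nhds'.1 (ih γ hγ) 𝒰 h
      exact ⟨z, (D.isClopen_W δ).isClosed.mem_of_tendsto (f := id) hz h𝒰, hz⟩
    · obtain ⟨x, -, hx⟩ := isCompact_univ.ultrafilter_le_nhds (𝒰.map Sp.pt) (by simp)
      refine ⟨⟨δ, x⟩, D.self_mem_W _ _, D.le_nhds hx ?_⟩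
      rintro S ⟨F, hF, hFδ, hFS⟩
      have h1 : ∀ γ ∈ F, ∀ᶠ z in (𝒰 : Filter (Sp D)), z ∉ D.W γ := fun γ hγ =>
        Ultrafilter.compl_mem_iff_notMem.2 fun h2 => h ⟨γ, hFδ hγ, h2⟩
      filter_upwards [h𝒰, (eventually_all_finite hF).2 h1] with z h2 h3 using hFS z h2 h3

instance : LocallyCompactSpace (Sp D) := by
  have : WeaklyLocallyCompactSpace (Sp D) := ⟨fun z =>
    ⟨D.W z.lev, D.isCompact_W _, (D.isClopen_W _).isOpen.mem_nhds (D.self_mem_W _ _)⟩⟩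
  infer_instance

omit [WellFoundedLT Ω] in
theorem countable_Iic (D : Dat Ω) (δ : Ω) : (Iic δ).Countable := by
  refine ((Set.countable_range (D.e δ)).insert δ).mono fun a ha => ?_
  rcases eq_or_lt_of_le (mem_Iic.1 ha) with h | h
  · exact Or.inl h
  · exact Or.inr (D.e_surj δ a h)

theorem locallyMetrizable : LocallyMetrizable (Sp D) := by
  intro z
  refine ⟨D.W z.lev, (D.isClopen_W _).isOpen, D.self_mem_W _ _, ?_⟩
  have := (D.countable_Iic z.lev).to_subtype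
  have : CompactSpace (D.W z.lev) := isCompact_iff_compactSpace.1 (D.isCompact_W _)
  let g : D.W z.lev → (ℕ → Bool) × (Iic z.lev → Bool) :=
    fun w => (w.1.pt, fun γ => (D.emb w.1).2 γ)
  have hg : Continuous g :=
    (D.continuous_pt.comp continuous_subtype_val).prodMk (continuous_pi fun γ =>
      (continuous_apply γ.1).comp (continuous_snd.comp
        (D.continuous_emb.comp continuous_subtype_val)))
  have hinj : Function.Injective g := by
    intro w w' h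
    have h1 : w.1.pt = w'.1.pt := congrArg Prod.fst h
    have h2 : ∀ γ, γ ≤ z.lev → (w.1 ∈ D.W γ ↔ w'.1 ∈ D.W γ) := fun γ hγ => by
      simpa [g, emb] using congrFun (congrArg Prod.snd h) ⟨γ, hγ⟩
    exact Subtype.ext (D.eq_of_mem_iff h1 ((h2 _ (D.lev_le w'.2)).2 (D.self_mem_W _ _))
      ((h2 _ (D.lev_le w.2)).1 (D.self_mem_W _ _)))
  exact (hg.isClosedEmbedding hinj).isEmbedding.metrizableSpace

theorem isOpen_cyl (x : ℕ → Bool) (n : ℕ) : IsOpen {y : ℕ → Bool | ∀ i < n, y i = x i} :=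
  PiNat.isOpen_cylinder (fun _ => Bool) x n

theorem exists_cyl {x : ℕ → Bool} {O : Set (ℕ → Bool)} (h : O ∈ 𝓝 x) :
    ∃ n, ∀ y : ℕ → Bool, (∀ i < n, y i = x i) → y ∈ O := by
  obtain ⟨_, ⟨y, n, rfl⟩, h1, h2⟩ :=
    (PiNat.isTopologicalBasis_cylinders fun _ : ℕ => Bool).mem_nhds_iff.1 h
  exact ⟨n, fun w hw => h2 fun i hi => (hw i hi).trans (h1 i hi)⟩

theorem exists_of_mem_nhds {z : Sp D} {G : Set (Sp D)} (h : G ∈ 𝓝 z) :
    ∃ n, ∃ S ∈ D.Φ z.lev, ∀ w ∈ S, (∀ i < n, w.pt i = z.pt i) → w ∈ G := by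
  have h1 : comap Sp.pt (𝓝 z.pt) ⊓ D.Φ z.lev ≤ 𝓝 z :=
    D.le_nhds (tendsto_comap.mono_left inf_le_left) inf_le_right
  obtain ⟨A, ⟨O, hO, hA⟩, S, hS, h2⟩ := mem_inf_iff_superset.1 (h1 h)
  obtain ⟨n, hn⟩ := exists_cyl hO
  exact ⟨n, S, hS, fun w hw hw' => h2 ⟨hA (hn _ hw'), hw⟩⟩

theorem weightLE (hΩ : Cardinal.mk Ω ≤ Cardinal.aleph 1) :
    WeightLE (Sp D) (Cardinal.aleph 1) := by
  classical
  let B : Ω × Finset Ω × ℕ × Finset ℕ → Set (Sp D) := fun p =>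
    {w | w ∈ D.W p.1 ∧ (∀ γ ∈ p.2.1, w ∉ D.W γ) ∧ ∀ i < p.2.2.1, w.pt i = decide (i ∈ p.2.2.2)}
  refine ⟨range B, isTopologicalBasis_of_isOpen_of_nhds ?_ ?_, Cardinal.mk_range_le.trans ?_⟩
  · rintro _ ⟨p, rfl⟩
    refine (D.isClopen_W _).isOpen.inter (IsOpen.inter ?_
      ((isOpen_cyl (fun i => decide (i ∈ p.2.2.2)) p.2.2.1).preimage D.continuous_pt))
    have : {w : Sp D | ∀ γ ∈ p.2.1, w ∉ D.W γ} = ⋂ γ ∈ p.2.1, (D.W γ)ᶜ := by
      ext w
      simp
    change IsOpen {w : Sp D | ∀ γ ∈ p.2.1, w ∉ D.W γ}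
    rw [this]
    exact isOpen_biInter_finset fun γ _ => (D.isClopen_W γ).compl.isOpen
  · intro z G hz hG
    obtain ⟨n, S, ⟨F, hF, hFδ, hFS⟩, h⟩ := D.exists_of_mem_nhds (hG.mem_nhds hz)
    have h1 : ∀ i < n, z.pt i = decide (i ∈ (Finset.range n).filter fun j => z.pt j = true) := by
      intro i hi
      simp [hi]
    refine ⟨_, ⟨(z.lev, hF.toFinset, n, (Finset.range n).filter fun j => z.pt j = true), rfl⟩,
      ⟨D.self_mem_W _ _, fun γ hγ h2 => ?_, h1⟩, fun w hw => h w (hFS w hw.1 fun γ hγ =>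
        hw.2.1 γ (hF.mem_toFinset.2 hγ)) fun i hi => (hw.2.2 i hi).trans (h1 i hi).symm⟩
    exact absurd (D.lev_le h2) (not_le.2 (hFδ (hF.mem_toFinset.1 hγ)))
  · have h0 : Cardinal.aleph0 ≤ Cardinal.aleph 1 := Cardinal.aleph0_le_aleph 1
    have h1 : Cardinal.mk (Finset Ω) ≤ Cardinal.aleph 1 := by
      rcases finite_or_infinite Ω with h | h
      · exact Cardinal.mk_le_aleph0.trans h0
      · rwa [Cardinal.mk_finset_of_infinite]
    have h2 : Cardinal.mk (ℕ × Finset ℕ) ≤ Cardinal.aleph 1 := Cardinal.mk_le_aleph0.trans h0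
    rw [Cardinal.mk_prod, Cardinal.mk_prod, Cardinal.lift_id, Cardinal.lift_id, Cardinal.lift_id,
      Cardinal.lift_id]
    exact Cardinal.mul_le_of_le h0 hΩ (Cardinal.mul_le_of_le h0 h1 h2)

/-- A compact set meets the fibre over a finitely supported sequence in a finite set. -/
theorem finite_fibre_of_isCompact {A : Set (Sp D)} (hA : IsCompact A) {n : ℕ} {q : ℕ → Bool}
    (hq : q ∈ T n) : {β | (⟨β, q⟩ : Sp D) ∈ A}.Finite := by
  refine hA.induction_on (p := fun A => {β | (⟨β, q⟩ : Sp D) ∈ A}.Finite) ?_ ?_ ?_ ?_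
  · exact finite_empty
  · exact fun s t hst ht => ht.subset fun β hβ => hst hβ
  · exact fun s t hs ht => hs.union ht
  · exact fun z _ => ⟨D.W z.lev, mem_nhdsWithin_of_mem_nhds
      ((D.isClopen_W _).isOpen.mem_nhds (D.self_mem_W _ _)), D.fibre_finite _ n q hq⟩

/-- On a compact set the enumerations take finitely many values where they are controlled. -/
theorem finite_values_of_isCompact {A : Set (Sp D)} (hA : IsCompact A) {i l : ℕ} (hl : l < i) :
    {a | ∃ z ∈ A, z.pt i = true ∧ D.e z.lev l = a}.Finite := by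
  refine hA.induction_on (p := fun A => {a | ∃ z ∈ A, z.pt i = true ∧ D.e z.lev l = a}.Finite)
    ?_ ?_ ?_ ?_
  · simp
  · exact fun s t hst ht => ht.subset fun a ⟨z, hz, h⟩ => ⟨z, hst hz, h⟩
  · refine fun s t hs ht => (hs.union ht).subset ?_
    rintro a ⟨z, hz | hz, h⟩
    · exact Or.inl ⟨z, hz, h⟩
    · exact Or.inr ⟨z, hz, h⟩
  · refine fun z _ => ⟨_, mem_nhdsWithin_of_mem_nhds (D.nhds_le_Φ z (D.ev_agree z.lev i)),
      (finite_singleton (D.e z.lev l)).subset ?_⟩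
    rintro a ⟨w, hw, h1, rfl⟩
    exact hw h1 l hl

/-- A set all of whose countable subsets lie in compact subsets meets countably many levels. -/
theorem countable_levels {Z : Set (Sp D)}
    (hZ : ∀ B ⊆ Z, B.Countable → ∃ A, IsCompact A ∧ B ⊆ A) : (Sp.lev '' Z).Countable := by
  have key : ∀ (P : Sp D → Prop) (g : Sp D → Ω),
      (∀ A, IsCompact A → {a | ∃ z ∈ A, P z ∧ g z = a}.Finite) →
      {a | ∃ z ∈ Z, P z ∧ g z = a}.Finite := by
    intro P g h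
    by_contra hinf
    obtain ⟨S, hS, hS1, hS2⟩ := (show Set.Infinite _ from hinf).exists_subset_countable_infinite
    obtain ⟨_, z₀, -⟩ := (show Set.Infinite _ from hinf).nonempty
    have : Nonempty (Sp D) := ⟨z₀⟩
    choose! c hc using fun a (ha : a ∈ S) => hS ha
    obtain ⟨A, hA, hBA⟩ := hZ (c '' S) (by rintro _ ⟨a, ha, rfl⟩; exact (hc a ha).1) (hS1.image c)
    exact hS2 ((h A hA).subset fun a ha => ⟨c a, hBA ⟨a, ha, rfl⟩, (hc a ha).2⟩)
  have h1 : (⋃ n, ⋃ q ∈ T n, {a | ∃ z ∈ Z, z.pt = q ∧ z.lev = a}).Countable :=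
    countable_iUnion fun n => ((T_finite n).biUnion fun q hq => key _ _ fun A hA =>
      (D.finite_fibre_of_isCompact hA hq).subset (by rintro _ ⟨z, hz, rfl, rfl⟩; exact hz)).countable
  have h2 : (⋃ i, ⋃ l ∈ {l | l < i}, {a | ∃ z ∈ Z, z.pt i = true ∧ D.e z.lev l = a}).Countable :=
    countable_iUnion fun i => ((Set.finite_lt_nat i).biUnion fun l hl => key _ _ fun A hA =>
      D.finite_values_of_isCompact hA hl).countable
  set R := ⋃ i, ⋃ l ∈ {l | l < i}, {a | ∃ z ∈ Z, z.pt i = true ∧ D.e z.lev l = a} with hR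
  have h3 : {α | Iio α ⊆ R}.Countable := by
    by_cases h : ∃ a, a ∉ R
    · obtain ⟨a, ha⟩ := h
      exact (D.countable_Iic a).mono fun α hα => not_lt.1 fun h4 => ha (hα h4)
    · exact h2.mono fun α _ => by_contra fun h4 => h ⟨α, h4⟩
  refine (h1.union h3).mono ?_
  rintro _ ⟨z, hz, rfl⟩
  by_cases h : ∃ n, z.pt ∈ T n
  · obtain ⟨n, hn⟩ := h
    exact Or.inl (mem_iUnion.2 ⟨n, mem_biUnion hn ⟨z, hz, rfl, rfl⟩⟩)
  · refine Or.inr fun a ha => ?_
    obtain ⟨l, rfl⟩ := D.e_surj _ a ha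
    have h4 : ∃ i, l + 1 ≤ i ∧ z.pt i = true := by
      by_contra h5
      exact h ⟨l + 1, fun i hi => by simpa using fun h6 => h5 ⟨i, hi, h6⟩⟩
    obtain ⟨i, hi, h5⟩ := h4
    exact mem_iUnion.2 ⟨i, mem_biUnion (show l ∈ {l | l < i} from hi) ⟨z, hz, h5, rfl⟩⟩

theorem exists_bound_omega_one {S : Set (Iio (Ordinal.omega.{0} 1))} (hS : S.Countable) :
    ∃ ξ : Iio (Ordinal.omega.{0} 1), IsCompact (Iio ξ ∪ {ξ}) ∧ S ⊆ Iio ξ := by
  have := hS.to_subtype
  have hlim := Cardinal.isSuccLimit_omega 1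
  have h1 : (⨆ s : S, (s.1.1 + 1)) < Ordinal.omega.{0} 1 :=
    Ordinal.iSup_lt_omega_one fun s => hlim.add_one_lt s.1.2
  refine ⟨⟨_, h1⟩, ?_, fun s hs => ?_⟩
  · rw [Iio_union_right, Subtype.isCompact_iff]
    have h2 : Subtype.val '' Iic (⟨_, h1⟩ : Iio (Ordinal.omega.{0} 1)) =
        Icc 0 (⨆ s : S, (s.1.1 + 1)) := by
      ext a
      constructor
      · rintro ⟨b, hb, rfl⟩
        exact ⟨zero_le, hb⟩
      · intro ha
        exact ⟨⟨a, ha.2.trans_lt h1⟩, ha.2, rfl⟩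
    rw [h2]
    exact isCompact_Icc
  · refine (lt_add_one s.1).trans_le (le_ciSup (f := fun s : S => s.1.1 + 1) ?_ ⟨s, hs⟩)
    exact ⟨Ordinal.omega.{0} 1, by rintro _ ⟨t, rfl⟩; exact (hlim.add_one_lt t.1.2).le⟩

theorem not_containsPerfectPreimage : ¬ ContainsPerfectPreimageOfOmegaOne (Sp D) := by
  rintro ⟨Z, f, hf, hsurj⟩
  have hp : IsProperMap f := isProperMap_iff_isClosedMap_and_compact_fibers.2 hf
  have h1 : (Sp.lev '' Z).Countable := by
    refine D.countable_levels fun B hBZ hB => ?_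
    obtain ⟨ξ, hξ, h⟩ := exists_bound_omega_one
      ((hB.preimage_of_injOn Subtype.val_injective.injOn).image f)
    exact ⟨_, (hp.isCompact_preimage hξ).image continuous_subtype_val, fun z hz =>
      ⟨⟨z, hBZ hz⟩, Or.inl (h ⟨⟨z, hBZ hz⟩, hz, rfl⟩), rfl⟩⟩
  -- `Z` is separable
  have h2 : ∀ α : Ω, ∃ t : Set (ℕ → Bool), t.Countable ∧ (∀ x ∈ t, (⟨α, x⟩ : Sp D) ∈ Z) ∧
      ∀ x, (⟨α, x⟩ : Sp D) ∈ Z → x ∈ closure t := fun α => by
    obtain ⟨t, h3, h4, h5⟩ :=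
      (IsSeparable.of_separableSpace {x | (⟨α, x⟩ : Sp D) ∈ Z}).exists_countable_dense_subset
    exact ⟨t, h4, h3, h5⟩
  choose t ht1 ht2 ht3 using h2
  set B : Set (Sp D) := ⋃ α ∈ Sp.lev '' Z, (fun x => (⟨α, x⟩ : Sp D)) '' t α with hB
  have hBc : B.Countable := h1.biUnion fun α _ => (ht1 α).image _
  obtain ⟨ξ, hξ, h⟩ := exists_bound_omega_one
    ((hBc.preimage_of_injOn Subtype.val_injective.injOn).image f)
  obtain ⟨η, -, hη⟩ := exists_bound_omega_one (countable_singleton ξ)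
  obtain ⟨z, rfl⟩ := hsurj η
  have h3 : z.1 ∈ closure B := by
    have h4 := map_mem_closure (D.continuous_mk z.1.lev) (ht3 z.1.lev z.1.pt z.2)
      (t := B) fun x hx => mem_biUnion (mem_image_of_mem _ z.2) (mem_image_of_mem _ hx)
    exact h4
  have hBZ : B ⊆ Z := by
    refine iUnion₂_subset fun α _ => ?_
    rintro _ ⟨x, hx, rfl⟩
    exact ht2 α x hx
  have h4 : z ∈ closure (Subtype.val ⁻¹' B : Set Z) := by
    rw [closure_subtype, image_preimage_eq_of_subset (by simpa using hBZ)]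
    exact h3
  have h5 : f z ∈ Iio ξ ∪ {ξ} := hξ.isClosed.closure_subset
    (map_mem_closure hf.1 h4 fun w hw => Or.inl (h ⟨w, hw, rfl⟩))
  have h6 : ξ < f z := hη rfl
  rcases h5 with h5 | h5
  · exact lt_asymm h6 h5
  · exact h6.ne' h5

omit [WellFoundedLT Ω] in
theorem exists_strict_bound (D : Dat Ω) [Uncountable Ω] {S : Set Ω} (hS : S.Countable) :
    ∃ b, ∀ a ∈ S, a < b := by
  by_contra h
  refine Set.not_countable_univ (α := Ω) ((hS.biUnion fun a _ => D.countable_Iic a).mono ?_)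
  intro b _
  by_contra hb
  refine h ⟨b, fun a ha => ?_⟩
  by_contra hab
  exact hb (mem_biUnion ha (not_lt.1 hab))

/-- Closing off: a level which is approximated by infinitely many lower levels of its colour. -/
theorem exists_closure_point [Uncountable Ω] {C : Type} [Countable C] (τ : Ω → C) :
    ∃ δ, ∀ j, {α | α < δ ∧ τ α = τ δ ∧ D.agree α δ j}.Infinite := by
  let A : C × List Ω → Set Ω := fun κ =>
    {α | τ α = κ.1 ∧ (List.range κ.2.length).map (D.e α) = κ.2}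
  have h1 : ∀ κ, ∃ B : Set Ω, B ⊆ A κ ∧ B.Countable ∧ (B.Infinite ∨ B = A κ) := by
    intro κ
    by_cases h : (A κ).Infinite
    · obtain ⟨B, h2, h3, h4⟩ := h.exists_subset_countable_infinite
      exact ⟨B, h2, h3, Or.inl h4⟩
    · exact ⟨A κ, Subset.rfl, (not_infinite.1 h).countable, Or.inr rfl⟩
  choose B hB1 hB2 hB3 using h1
  have h2 : ∀ ξ : Ω, ∃ b, ξ < b ∧ ∀ κ : C × List Ω, (∀ a ∈ κ.2, a ≤ ξ) → ∀ a ∈ B κ, a < b := by
    intro ξ
    have := (D.countable_Iic ξ).to_subtype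
    have h3 : {κ : C × List Ω | ∀ a ∈ κ.2, a ≤ ξ}.Countable := by
      refine (Set.countable_range fun p : C × List (Iic ξ) =>
        (p.1, p.2.map Subtype.val)).mono fun κ hκ => ?_
      exact ⟨(κ.1, κ.2.attachWith (fun a => a ∈ Iic ξ) hκ), by simp⟩
    obtain ⟨b, hb⟩ := D.exists_strict_bound ((h3.biUnion fun κ _ => hB2 κ).insert ξ)
    exact ⟨b, hb ξ (Or.inl rfl), fun κ hκ a ha => hb a (Or.inr (mem_biUnion hκ ha))⟩
  choose h hh1 hh2 using h2
  obtain ⟨a₀⟩ : Nonempty Ω := inferInstance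
  let s : ℕ → Ω := fun n => h^[n] a₀
  have hs : ∀ n, s (n + 1) = h (s n) := fun n => Function.iterate_succ_apply' h n a₀
  have hmono : StrictMono s := strictMono_nat_of_lt_succ fun n => by rw [hs]; exact hh1 _
  obtain ⟨δ, hδ1, hδ2⟩ := (wellFounded_lt (α := Ω)).has_min {b | ∀ n, s n < b} (by
    obtain ⟨b, hb⟩ := D.exists_strict_bound (Set.countable_range s)
    exact ⟨b, fun n => hb _ ⟨n, rfl⟩⟩)
  have h4 : ∀ a, a < δ → ∃ n, a ≤ s n := by
    intro a ha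
    by_contra hc
    exact hδ2 a (fun n => not_le.1 fun h5 => hc ⟨n, h5⟩) ha
  refine ⟨δ, fun j => ?_⟩
  choose n hn using fun l => h4 _ (D.e_lt δ _ (hδ1 0) l)
  obtain ⟨N, hN⟩ := ((Set.finite_lt_nat j).image n).bddAbove
  let κ : C × List Ω := (τ δ, (List.range j).map (D.e δ))
  have h5 : ∀ a ∈ B κ, a < δ := fun a ha => by
    refine (hh2 (s N) κ (fun b hb => ?_) a ha).trans (hs N ▸ hδ1 (N + 1))
    obtain ⟨l, hl, rfl⟩ := List.mem_map.1 hb
    exact (hn l).trans (hmono.monotone (hN ⟨l, List.mem_range.1 hl, rfl⟩))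
  rcases hB3 κ with h6 | h6
  · refine h6.mono fun a ha => ⟨h5 a ha, (hB1 κ ha).1, fun l hl => ?_⟩
    have h7 := (hB1 κ ha).2
    simp only [κ, List.length_map, List.length_range, List.map_inj_left, List.mem_range] at h7
    exact h7 l hl
  · exact absurd (h5 δ (h6 ▸ ⟨rfl, by simp [κ]⟩)) (lt_irrefl _)

theorem not_quasiDevelopable [Uncountable Ω] : ¬ QuasiDevelopable (Sp D) := by
  classical
  rintro ⟨G, hG, h⟩
  let L : Ω → ℕ → Set (ℕ → Bool) := fun α n =>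
    {x | (⟨α, x⟩ : Sp D) ∈ star ⟨α, x⟩ (G n) ∧ star (⟨α, x⟩ : Sp D) (G n) ⊆ D.W α}
  have h1 : ∀ α, ∃ c : ℕ × ℕ × Finset ℕ, ∀ y : ℕ → Bool,
      (∀ i < c.2.1, y i = decide (i ∈ c.2.2)) → y ∈ closure (L α c.1) := by
    intro α
    obtain ⟨n, x, hx⟩ := nonempty_interior_of_iUnion_of_closed (f := fun n => closure (L α n))
      (fun _ => isClosed_closure) (eq_univ_of_forall fun x => by
        obtain ⟨n, hn⟩ := h ⟨α, x⟩ _ (D.isClopen_W α).isOpen (D.self_mem_W α x)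
        exact mem_iUnion.2 ⟨n, subset_closure hn⟩)
    obtain ⟨m, hm⟩ := exists_cyl (mem_interior_iff_mem_nhds.1 hx)
    refine ⟨(n, m, (Finset.range m).filter fun j => x j = true), fun y hy => hm y fun i hi => ?_⟩
    rw [hy i hi]
    simp [hi]
  choose τ hτ using h1
  obtain ⟨δ, hδ⟩ := D.exists_closure_point τ
  obtain ⟨x, hx1, ⟨O, ⟨hO, hxO⟩, -⟩, -⟩ := mem_closure_iff.1
    (hτ δ (fun i => decide (i ∈ (τ δ).2.2)) fun _ _ => rfl) _
    (isOpen_cyl (fun i => decide (i ∈ (τ δ).2.2)) (τ δ).2.1) fun _ _ => rfl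
  obtain ⟨m, S, hS, hSO⟩ := D.exists_of_mem_nhds ((hG _ O hO).mem_nhds hxO)
  set m' := max m (τ δ).2.1 with hm'
  have hq : (fun i => if i < m' then x i else false) ∈ T m' := fun i hi => by
    simp [not_lt.2 hi]
  obtain ⟨α, ⟨hα1, hα2, hα3⟩, hα4⟩ := ((hδ m').sdiff (D.accumulate hS hq)).nonempty
  have h2 : ∃ y : ℕ → Bool, (∀ i < m', y i = if i < m' then x i else false) ∧
      (⟨α, y⟩ : Sp D) ∈ S := by
    by_contra hc
    exact hα4 ⟨hα1, hα3, hc⟩
  obtain ⟨y, hy1, hy2⟩ := h2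
  have hy3 : ∀ i < m', y i = x i := fun i hi => by rw [hy1 i hi, if_pos hi]
  have hyO : (⟨α, y⟩ : Sp D) ∈ O := hSO _ hy2 fun i hi => hy3 i (lt_max_of_lt_left hi)
  have hy4 : y ∈ closure (L α (τ α).1) := hτ α y fun i hi => by
    rw [hα2] at hi ⊢
    exact (hy3 i (lt_max_of_lt_right hi)).trans (hx1 i hi)
  obtain ⟨y', hy5, -, hy6⟩ := mem_closure_iff.1 hy4 _
    ((hG _ O hO).preimage (D.continuous_mk α)) hyO
  rw [hα2] at hy6
  exact absurd (D.lev_le (hy6 ⟨O, ⟨hO, hy5⟩, hxO⟩)) (not_le.2 hα1)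

end Dat

theorem exists_dat {Ω : Type} [LinearOrder Ω] [Nonempty Ω] (h : ∀ δ : Ω, (Iio δ).Countable) :
    Nonempty (Dat Ω) := by
  have h1 : ∀ δ : Ω, ∃ f : ℕ → Ω, (∀ a, a < δ → ∀ l, f l < δ) ∧ ∀ a, a < δ → ∃ l, f l = a := by
    intro δ
    rcases (Iio δ).eq_empty_or_nonempty with h2 | h2
    · have h3 : ∀ a, ¬ a < δ := fun a ha => (h2 ▸ ha : a ∈ (∅ : Set Ω))
      exact ⟨fun _ => δ, fun a ha => (h3 a ha).elim, fun a ha => (h3 a ha).elim⟩
    · obtain ⟨f, hf⟩ := (h δ).exists_eq_range h2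
      exact ⟨f, fun _ _ l => (hf ▸ mem_range_self l : f l ∈ Iio δ),
        fun a ha => (hf ▸ ha : a ∈ range f)⟩
  choose e he1 he2 using h1
  choose ι hι using fun δ => Set.countable_iff_exists_injOn.1 (h δ)
  exact ⟨⟨e, ι, he1, he2, hι⟩⟩

end Pool.Agent.Lib.MP_1f0905_gt
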